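import Mathlib

set_option autoImplicit false

open Set Filter Topology

namespace Pool.Agent.Helper28.CpHSS

universe u v w

/-- `Y` is hereditarily sequentially separable: every subspace `A` of `Y` has a countable
subset `D` such that every point of `A` is the limit of a sequence of points of `D`. -/
def HSS (Y : Type u) [TopologicalSpace Y] : Prop :=
  ∀ A : Set Y, ∃ D : Set Y, D ⊆ A ∧ D.Countable ∧
    ∀ f ∈ A, ∃ s : ℕ → Y, (∀ k, s k ∈ D) ∧ Tendsto s atTop (𝓝 f)

/-- `Y` is hereditarily separable: every subspace `A` of `Y` has a countable dense subset. -/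
def HS (Y : Type u) [TopologicalSpace Y] : Prop :=
  ∀ A : Set Y, ∃ D : Set Y, D ⊆ A ∧ D.Countable ∧ A ⊆ closure D

/-- `Y` has a countable network. -/
def Cosmic (Y : Type u) [TopologicalSpace Y] : Prop :=
  ∃ N : Set (Set Y), N.Countable ∧
    ∀ y : Y, ∀ U : Set Y, IsOpen U → y ∈ U → ∃ n ∈ N, y ∈ n ∧ n ⊆ U

/-- The space `C_p(X)` of continuous real-valued functions on `X` with the topology of pointwise
convergence (the subspace topology inherited from the product `ℝ ^ X`). -/
abbrev Cp (X : Type u) [TopologicalSpace X] : Type u := {f : X → ℝ // Continuous f}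

section general

variable {X : Type u} [TopologicalSpace X] {Y : Type v} [TopologicalSpace Y]

theorem HSS.hs (h : HSS Y) : HS Y := by
  intro A
  obtain ⟨D, hDA, hDc, hD⟩ := h A
  refine ⟨D, hDA, hDc, fun f hf => ?_⟩
  obtain ⟨s, hs, hl⟩ := hD f hf
  exact mem_closure_of_tendsto hl (Eventually.of_forall hs)

/-- A set `A` in a space with codes in a hereditarily sequentially separable space `T`, such that
convergence of codes implies convergence, is sequentially separable. -/
theorem exists_of_code {T : Type w} [TopologicalSpace T] (hT : HSS T) (A : Set Y)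
    (c : Y → T)
    (hc : ∀ f ∈ A, ∀ s : ℕ → Y, (∀ k, s k ∈ A) → Tendsto (fun k => c (s k)) atTop (𝓝 (c f)) →
      Tendsto s atTop (𝓝 f)) :
    ∃ D : Set Y, D ⊆ A ∧ D.Countable ∧
      ∀ f ∈ A, ∃ s : ℕ → Y, (∀ k, s k ∈ D) ∧ Tendsto s atTop (𝓝 f) := by
  rcases A.eq_empty_or_nonempty with rfl | ⟨a₀, ha₀⟩
  · exact ⟨∅, subset_rfl, countable_empty, fun f hf => absurd hf (notMem_empty f)⟩
  have : Nonempty Y := ⟨a₀⟩
  obtain ⟨D', hD'A, hD'c, hD'⟩ := hT (c '' A)
  have hp : ∀ d ∈ D', Function.invFunOn c A d ∈ A ∧ c (Function.invFunOn c A d) = d :=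
    fun d hd => ⟨Function.invFunOn_mem (hD'A hd), Function.invFunOn_eq (hD'A hd)⟩
  refine ⟨Function.invFunOn c A '' D', ?_, hD'c.image _, ?_⟩
  · rintro _ ⟨d, hd, rfl⟩
    exact (hp d hd).1
  · intro f hf
    obtain ⟨s, hs, hl⟩ := hD' (c f) ⟨f, hf, rfl⟩
    refine ⟨fun k => Function.invFunOn c A (s k), fun k => ⟨s k, hs k, rfl⟩, ?_⟩
    refine hc f hf _ (fun k => (hp _ (hs k)).1) ?_
    have : (fun k => c (Function.invFunOn c A (s k))) = s := by
      funext k
      exact (hp _ (hs k)).2
    rw [this]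
    exact hl

/-- Same, for the whole space. -/
theorem hss_of_code {T : Type w} [TopologicalSpace T] (hT : HSS T)
    (c : Y → T)
    (hc : ∀ f : Y, ∀ s : ℕ → Y, Tendsto (fun k => c (s k)) atTop (𝓝 (c f)) →
      Tendsto s atTop (𝓝 f)) : HSS Y :=
  fun A => exists_of_code hT A c (fun f _ s _ h => hc f s h)

theorem HSS.of_isEmbedding (hY : HSS Y) {e : X → Y} (he : IsEmbedding e) : HSS X :=
  hss_of_code hY e (fun _ _ h => he.tendsto_nhds_iff.2 h)

theorem HSS.of_isInducing (hY : HSS Y) {e : X → Y} (he : IsInducing e) : HSS X :=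
  hss_of_code hY e (fun _ _ h => he.tendsto_nhds_iff.2 h)

/-- Continuous images preserve `HSS`. -/
theorem HSS.image (hX : HSS X) {g : X → Y} (hg : Continuous g) (hs : Function.Surjective g) :
    HSS Y := by
  obtain ⟨r, hr⟩ := hs.hasRightInverse
  refine hss_of_code hX r (fun f s h => ?_)
  have := (hg.tendsto (r f)).comp h
  rw [hr f] at this
  refine this.congr (fun k => ?_)
  simp only [Function.comp_apply]
  exact hr (s k)

theorem hss_of_firstCountable [FirstCountableTopology Y] (h : HS Y) : HSS Y := by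
  intro A
  obtain ⟨D, hDA, hDc, hD⟩ := h A
  refine ⟨D, hDA, hDc, fun f hf => ?_⟩
  obtain ⟨s, hs, hl⟩ := mem_closure_iff_seq_limit.1 (hD hf)
  exact ⟨s, hs, hl⟩

theorem hs_of_secondCountable [SecondCountableTopology Y] : HS Y := by
  intro A
  obtain ⟨D, hDc, hD⟩ := TopologicalSpace.exists_countable_dense A
  refine ⟨(↑) '' D, ?_, hDc.image _, ?_⟩
  · rintro _ ⟨d, -, rfl⟩
    exact d.2
  · intro a ha
    have h1 : (⟨a, ha⟩ : A) ∈ closure D := hD _
    exact image_closure_subset_closure_image continuous_subtype_val ⟨_, h1, rfl⟩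

theorem hss_of_secondCountable [SecondCountableTopology Y] : HSS Y :=
  hss_of_firstCountable hs_of_secondCountable

end general

end Pool.Agent.Helper28.CpHSS
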