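import Mathlib
import Pool.Agent.Helper28.CpHSS.Basic

set_option autoImplicit false

open Set Filter Topology

namespace Pool.Agent.Helper28.CpHSS

universe u v w

section velichko

variable {X : Type u} [TopologicalSpace X]

theorem exists_bump [CompletelyRegularSpace X] {x : X} {U : Set X} (hU : IsOpen U) (hx : x ∈ U) :
    ∃ φ : X → ℝ, Continuous φ ∧ φ x = 1 ∧ (∀ y, y ∉ U → φ y = 0) ∧ ∀ y, 0 ≤ φ y := by
  obtain ⟨f, hf, hfx, hfU⟩ := CompletelyRegularSpace.completely_regular_isOpen x U hU hx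
  refine ⟨fun y => 1 - (f y : ℝ), by fun_prop, by simp [hfx], fun y hy => ?_, fun y => ?_⟩
  · have := hfU (show y ∈ Uᶜ from hy)
    simp [this]
  · have := (f y).2.2
    simp only [sub_nonneg]
    exact this

theorem isLindelof_of_nhds {Y : Type v} [TopologicalSpace Y] (S : Set Y)
    (H : ∀ U : Y → Set Y, (∀ s ∈ S, IsOpen (U s) ∧ s ∈ U s) →
      ∃ C : Set Y, C ⊆ S ∧ C.Countable ∧ ∀ s ∈ S, ∃ c ∈ C, s ∈ U c) : IsLindelof S := by
  classical
  refine isLindelof_of_countable_subcover fun {ι} U hU hSU => ?_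
  rcases S.eq_empty_or_nonempty with rfl | ⟨s₀, hs₀⟩
  · exact ⟨∅, countable_empty, empty_subset _⟩
  obtain ⟨i₀, -⟩ := mem_iUnion.1 (hSU hs₀)
  have hc : ∀ s, ∃ i, s ∈ S → s ∈ U i := fun s => by
    by_cases hs : s ∈ S
    · obtain ⟨i, hi⟩ := mem_iUnion.1 (hSU hs)
      exact ⟨i, fun _ => hi⟩
    · exact ⟨i₀, fun h => absurd h hs⟩
  choose i hi using hc
  obtain ⟨C, hCS, hCc, hC⟩ := H (fun s => U (i s)) (fun s hs => ⟨hU _, hi s hs⟩)
  refine ⟨i '' C, hCc.image _, fun s hs => ?_⟩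
  obtain ⟨c, hc, hsc⟩ := hC s hs
  exact mem_iUnion₂.2 ⟨i c, ⟨c, hc, rfl⟩, hsc⟩

/-- finite interpolation -/
theorem exists_interp [T35Space X] {n : ℕ} (s : Fin n → X) (r : Fin n → ℕ)
    (hr : ∀ i j, s i = s j → r i = r j) : ∃ f : X → ℝ, Continuous f ∧ ∀ i, f (s i) = r i := by
  classical
  -- for each point of the range a bump function vanishing at the other points of the range
  have hb : ∀ x : X, ∃ φ : X → ℝ, Continuous φ ∧ φ x = 1 ∧
      (∀ y, y ∉ ((range s) \ {x})ᶜ → φ y = 0) ∧ ∀ y, 0 ≤ φ y := fun x =>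
    exists_bump (((finite_range s).subset sdiff_subset).isClosed.isOpen_compl) (by simp)
  choose φ hφ h1 h0 _ using hb
  let F : Finset X := (finite_range s).toFinset
  have hex : ∀ x : X, ∃ v : ℕ, ∀ i, s i = x → r i = v := by
    intro x
    by_cases h : ∃ i, s i = x
    · obtain ⟨i, hi⟩ := h
      exact ⟨r i, fun j hj => hr j i (hj.trans hi.symm)⟩
    · exact ⟨0, fun i hi => absurd ⟨i, hi⟩ h⟩
  choose v hv using hex
  refine ⟨fun y => ∑ x ∈ F, (v x : ℝ) * φ x y, ?_, fun i => ?_⟩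
  · exact continuous_finsetSum F fun x _ => continuous_const.mul (hφ x)
  · show ∑ x ∈ F, (v x : ℝ) * φ x (s i) = (r i : ℝ)
    rw [Finset.sum_eq_single (s i)]
    · rw [h1, mul_one, hv (s i) i rfl]
    · intro x hx hne
      rw [h0 x (s i), mul_zero]
      exact fun hcon => hcon ⟨mem_range_self i, fun h => hne (mem_singleton_iff.1 h).symm⟩
    · intro h
      exact absurd ((finite_range s).mem_toFinset.2 (mem_range_self i)) h

/-- The Velichko-Zenor theorem (one direction): if `C_p(X)` is hereditarily separable then all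
finite powers of `X` are hereditarily Lindelöf. -/
theorem hl_of_hs [T35Space X] (h : HS (Cp X)) (n : ℕ) : HereditarilyLindelofSpace (Fin n → X) := by
  classical
  refine ⟨fun S _ => isLindelof_of_nhds S fun U hU => ?_⟩
  -- basic boxes
  have hbox : ∀ s ∈ S, ∃ u : Fin n → Set X, (∀ i, IsOpen (u i) ∧ s i ∈ u i) ∧
      univ.pi u ⊆ U s := fun s hs => isOpen_pi_iff'.1 (hU s hs).1 s (hU s hs).2
  choose! u hu hub using hbox
  obtain ⟨D₀, -, hD₀c, hD₀⟩ := h univ
  -- the classes, indexed by patterns and separating functions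
  let B : (Fin n → ℕ) × D₀ → Set (Fin n → X) := fun p =>
    {s ∈ S | (∀ i j, s i = s j ↔ p.1 i = p.1 j) ∧ ∀ i, |p.2.1.1 (s i) - p.1 i| < 1 / 3}
  have hcover : ∀ s ∈ S, ∃ p, s ∈ B p := by
    intro s hs
    obtain ⟨g, hg⟩ := exists_injective_nat (range s)
    let r : Fin n → ℕ := fun i => g ⟨s i, mem_range_self i⟩
    have hr : ∀ i j, s i = s j ↔ r i = r j := by
      intro i j
      constructor
      · intro hij
        simp only [r]
        congr 1
        exact Subtype.ext hij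
      · intro hij
        exact congrArg Subtype.val (hg hij)
    obtain ⟨f, hf, hfs⟩ := exists_interp s r (fun i j => (hr i j).1)
    have hcl : (⟨f, hf⟩ : Cp X) ∈ closure D₀ := hD₀ (mem_univ _)
    have hop : IsOpen {k : Cp X | ∀ i, |k.1 (s i) - r i| < 1 / 3} := by
      have : {k : Cp X | ∀ i, |k.1 (s i) - r i| < 1 / 3} =
          ⋂ i, {k : Cp X | |k.1 (s i) - r i| < 1 / 3} := by ext; simp
      rw [this]
      refine isOpen_iInter_of_finite fun i => isOpen_lt ?_ continuous_const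
      have : Continuous fun k : Cp X => k.1 (s i) :=
        (continuous_apply (s i)).comp continuous_subtype_val
      exact (this.sub continuous_const).abs
    obtain ⟨d, hd1, hd2⟩ := mem_closure_iff.1 hcl _ hop (fun i => by simp [hfs])
    exact ⟨(r, ⟨d, hd2⟩), hs, hr, hd1⟩
  -- the neighbourhoods
  let V : (Fin n → ℕ) × D₀ → (Fin n → X) → Fin n → Set X := fun p s i =>
    {x | |p.2.1.1 x - p.1 i| < 1 / 3 ∧ ∀ j, p.1 j = p.1 i → x ∈ u s j}
  have hVo : ∀ p, ∀ s ∈ B p, ∀ i, IsOpen (V p s i) ∧ s i ∈ V p s i := by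
    intro p s hs i
    constructor
    · have : V p s i = {x | |p.2.1.1 x - p.1 i| < 1 / 3} ∩ ⋂ j : {j // p.1 j = p.1 i}, u s j := by
        ext x
        simp [V]
      rw [this]
      refine IsOpen.inter (isOpen_lt ?_ continuous_const)
        (isOpen_iInter_of_finite fun j => (hu s hs.1 j).1)
      have := p.2.1.2
      fun_prop
    · refine ⟨hs.2.2 i, fun j hj => ?_⟩
      rw [← (hs.2.1 j i).2 hj]
      exact (hu s hs.1 j).2
  -- a countable subfamily for each class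
  have key : ∀ p, ∃ C : Set (Fin n → X), C ⊆ B p ∧ C.Countable ∧ ∀ s ∈ B p, ∃ c ∈ C, s ∈ U c := by
    intro p
    obtain ⟨D, hDA, hDc, hD⟩ := h {k : Cp X | ∃ s ∈ B p, ∀ x, k.1 x ≠ 0 → ∃ i, x ∈ V p s i}
    have hw : ∀ k : D, ∃ s ∈ B p, ∀ x, k.1.1 x ≠ 0 → ∃ i, x ∈ V p s i := fun k => hDA k.2
    choose w hwB hwV using hw
    have := hDc.to_subtype
    refine ⟨range w, ?_, countable_range w, fun s hs => ?_⟩
    · rintro _ ⟨k, rfl⟩
      exact hwB k
    have hbump : ∀ i, ∃ φ : X → ℝ, Continuous φ ∧ φ (s i) = 1 ∧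
        (∀ y, y ∉ V p s i → φ y = 0) ∧ ∀ y, 0 ≤ φ y :=
      fun i => exists_bump (hVo p s hs i).1 (hVo p s hs i).2
    choose φ hφ h1 h0 hnn using hbump
    let k₀ : Cp X := ⟨fun x => ∑ i, φ i x, continuous_finsetSum _ fun i _ => hφ i⟩
    have hk₀ : k₀ ∈ closure D := by
      refine hD ⟨s, hs, fun x hx => ?_⟩
      by_contra hcon
      refine hx ?_
      show ∑ i, φ i x = 0
      exact Finset.sum_eq_zero fun i _ => h0 i x (fun hi => hcon ⟨i, hi⟩)
    have hop : IsOpen {k : Cp X | ∀ i, 1 / 2 < k.1 (s i)} := by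
      have : {k : Cp X | ∀ i, 1 / 2 < k.1 (s i)} = ⋂ i, {k : Cp X | 1 / 2 < k.1 (s i)} := by
        ext; simp
      rw [this]
      exact isOpen_iInter_of_finite fun i => isOpen_lt continuous_const
        ((continuous_apply (s i)).comp continuous_subtype_val)
    obtain ⟨k, hk1, hkD⟩ := mem_closure_iff.1 hk₀ _ hop (fun i => by
      have h2 : φ i (s i) ≤ ∑ j, φ j (s i) :=
        Finset.single_le_sum (f := fun j => φ j (s i)) (fun j _ => hnn j _) (Finset.mem_univ i)
      rw [h1] at h2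
      show (1 : ℝ) / 2 < ∑ j, φ j (s i)
      linarith)
    refine ⟨w ⟨k, hkD⟩, ⟨⟨k, hkD⟩, rfl⟩, hub _ (hwB ⟨k, hkD⟩).1 fun i _ => ?_⟩
    obtain ⟨l, hl1, hl2⟩ := hwV ⟨k, hkD⟩ (s i) (by have := hk1 i; show k.1 (s i) ≠ 0; linarith)
    refine hl2 i ?_
    have h3 := hs.2.2 i
    rw [abs_lt] at h3 hl1
    by_contra hne
    rcases lt_or_gt_of_ne hne with hlt | hlt
    · have : (p.1 i : ℝ) + 1 ≤ p.1 l := by exact_mod_cast hlt
      linarith [h3.1, h3.2, hl1.1, hl1.2]
    · have : (p.1 l : ℝ) + 1 ≤ p.1 i := by exact_mod_cast hlt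
      linarith [h3.1, h3.2, hl1.1, hl1.2]
  choose C hCB hCc hC using key
  have := hD₀c.to_subtype
  refine ⟨⋃ p, C p, iUnion_subset fun p => (hCB p).trans fun s hs => hs.1,
    countable_iUnion hCc, fun s hs => ?_⟩
  obtain ⟨p, hp⟩ := hcover s hs
  obtain ⟨c, hc, hsc⟩ := hC p s hp
  exact ⟨c, mem_iUnion.2 ⟨p, hc⟩, hsc⟩

end velichko

end Pool.Agent.Helper28.CpHSS
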