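import Mathlib
import Pool.Agent.Helper28.CpHSS.Basic
import Pool.Agent.Helper28.CpHSS.Velichko

set_option autoImplicit false

open Set Filter Topology

namespace Pool.Agent.Helper28.CpHSS

universe u v w

section codes

variable {Z : Type u} [TopologicalSpace Z]

theorem hss_of_subsingleton {Y : Type v} [TopologicalSpace Y] [Subsingleton Y] : HSS Y :=
  fun A => ⟨A, subset_rfl, Set.Subsingleton.countable (fun a _ b _ => Subsingleton.elim a b),
    fun f hf => ⟨fun _ => f, fun _ => hf, tendsto_const_nhds⟩⟩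

theorem hss_pi_countable (hZ : HSS (ℕ → Z)) (K : Type v) [Countable K] : HSS (K → Z) := by
  rcases isEmpty_or_nonempty K with hK | hK
  · exact hss_of_subsingleton
  · obtain ⟨g, hg⟩ := exists_surjective_nat K
    refine hss_of_code hZ (fun z => z ∘ g) (fun z s hs => ?_)
    rw [tendsto_pi_nhds] at hs ⊢
    intro k
    obtain ⟨n, rfl⟩ := hg k
    exact hs n

theorem hss_bool_prod [T2Space Z] (hZ : HSS (ℕ → Z)) (K' : Type v) (K : Type w) [Countable K']
    [Countable K] : HSS ((K' → Bool) × (K → Z)) := by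
  rcases subsingleton_or_nontrivial Z with hs | hn
  · refine hss_of_code (T := K' → Bool) hss_of_secondCountable Prod.fst (fun z s h => ?_)
    rw [nhds_prod_eq]
    refine h.prodMk ?_
    have : (fun k => (s k).2) = fun _ => z.2 := by
      funext k
      exact Subsingleton.elim _ _
    rw [this]
    exact tendsto_const_nhds
  · obtain ⟨a, b, hab⟩ := exists_pair_ne Z
    refine hss_of_code (T := K' ⊕ K → Z) (hss_pi_countable hZ _)
      (fun z => Sum.elim (fun k => if z.1 k then a else b) z.2) (fun z s h => ?_)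
    rw [tendsto_pi_nhds] at h
    rw [nhds_prod_eq]
    refine Tendsto.prodMk ?_ ?_
    · rw [tendsto_pi_nhds]
      intro k
      have hk := h (Sum.inl k)
      simp only [Sum.elim_inl] at hk
      rw [nhds_discrete, tendsto_pure]
      by_cases hz : z.1 k = true
      · rw [if_pos hz] at hk
        filter_upwards [hk.eventually_ne hab] with m hm
        rw [hz]
        by_contra hcon
        exact hm (if_neg hcon)
      · rw [if_neg hz] at hk
        filter_upwards [hk.eventually_ne hab.symm] with m hm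
        rw [Bool.not_eq_true] at hz
        rw [hz]
        by_contra hcon
        rw [Bool.not_eq_false] at hcon
        exact hm (if_pos hcon)
    · rw [tendsto_pi_nhds]
      intro k
      exact h (Sum.inr k)

end codes

section double

variable {Z : Type u} [TopologicalSpace Z]

/-- the basic condition -/
def Box (z : ℕ → Z) (L : Finset (ℕ × ℚ × ℚ)) (w : Z → ℝ) : Prop :=
  ∀ t ∈ L, (t.2.1 : ℝ) < w (z t.1) ∧ w (z t.1) < (t.2.2 : ℝ)

omit [TopologicalSpace Z] in
theorem exists_box [Nonempty Z] (w : Z → ℝ) (V : Set (Z → ℝ)) (hV : IsOpen V) (hw : w ∈ V) :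
    ∃ (z : ℕ → Z) (L : Finset (ℕ × ℚ × ℚ)), Box z L w ∧ ∀ w', Box z L w' → w' ∈ V := by
  classical
  obtain ⟨I, u, hu, huV⟩ := isOpen_pi_iff.1 hV w hw
  have hpq : ∀ a ∈ I, ∃ pq : ℚ × ℚ, (pq.1 : ℝ) < w a ∧ w a < (pq.2 : ℝ) ∧
      Ioo (pq.1 : ℝ) pq.2 ⊆ u a := by
    intro a ha
    obtain ⟨l, r, hlr, hsub⟩ := mem_nhds_iff_exists_Ioo_subset.1
      ((hu a ha).1.mem_nhds (hu a ha).2)
    obtain ⟨p, hp1, hp2⟩ := exists_rat_btwn hlr.1
    obtain ⟨q, hq1, hq2⟩ := exists_rat_btwn hlr.2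
    exact ⟨(p, q), hp2, hq1, fun x hx => hsub ⟨hp1.trans hx.1, hx.2.trans hq2⟩⟩
  choose! pq h1 h2 h3 using hpq
  obtain ⟨e⟩ : Nonempty (I ≃ Fin I.card) := ⟨I.equivFin⟩
  let z : ℕ → Z := fun i => if h : i < I.card then (e.symm ⟨i, h⟩ : Z) else Classical.arbitrary Z
  have hz : ∀ a : I, z (e a) = a := fun a => by
    simp only [z]
    rw [dif_pos (e a).2]
    simp
  refine ⟨z, I.attach.image fun a => (((e a : Fin I.card) : ℕ), pq a.1), ?_, ?_⟩
  · intro t ht
    obtain ⟨a, -, rfl⟩ := Finset.mem_image.1 ht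
    simp only [hz]
    exact ⟨h1 a a.2, h2 a a.2⟩
  · intro w' hw'
    refine huV fun a ha => h3 a ha ?_
    have := hw' _ (Finset.mem_image_of_mem _ (Finset.mem_attach I ⟨a, ha⟩))
    simp only [hz] at this
    exact this

theorem isOpen_box (w : Z → ℝ) (hw : Continuous w) (L : Finset (ℕ × ℚ × ℚ)) :
    IsOpen {z : ℕ → Z | Box z L w} := by
  have : {z : ℕ → Z | Box z L w} = ⋂ t ∈ L, {z : ℕ → Z | (t.2.1 : ℝ) < w (z t.1) ∧
      w (z t.1) < (t.2.2 : ℝ)} := by
    ext z
    simp [Box]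
  rw [this]
  refine isOpen_biInter_finset fun t _ => ?_
  have hc : Continuous fun z : ℕ → Z => w (z t.1) := hw.comp (continuous_apply _)
  exact (isOpen_lt continuous_const hc).inter (isOpen_lt hc continuous_const)

/-- a dense sequence in a set -/
theorem exists_dense_seq {T : Type v} [TopologicalSpace T] [Nonempty T] (hT : HS T) (S : Set T) :
    ∃ e : ℕ → T, S.Nonempty → (∀ k, e k ∈ S) ∧ S ⊆ closure (range e) := by
  rcases S.eq_empty_or_nonempty with rfl | hS
  · exact ⟨fun _ => Classical.arbitrary T, fun h => absurd h Set.not_nonempty_empty⟩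
  obtain ⟨D, hDS, hDc, hD⟩ := hT S
  have hne : D.Nonempty := by
    by_contra hcon
    rw [Set.not_nonempty_iff_eq_empty] at hcon
    rw [hcon, closure_empty] at hD
    obtain ⟨s, hs⟩ := hS
    exact hD hs
  obtain ⟨e, rfl⟩ := hDc.exists_eq_range hne
  exact ⟨e, fun _ => ⟨fun k => hDS ⟨k, rfl⟩, hD⟩⟩

theorem tendsto_real_of_rat {α : Type*} {l : Filter α} (f : α → ℝ) (a : ℝ)
    (main : ∀ p q : ℚ, (p : ℝ) < a → a < (q : ℝ) → ∀ᶠ m in l, (p : ℝ) < f m ∧ f m < (q : ℝ)) :
    Tendsto f l (𝓝 a) := by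
  rw [tendsto_order]
  constructor
  · intro b hb
    obtain ⟨p, hp1, hp2⟩ := exists_rat_btwn hb
    obtain ⟨q, hq1, -⟩ := exists_rat_btwn (lt_add_one a)
    filter_upwards [main p q hp2 hq1] with m hm
    exact hp1.trans hm.1
  · intro b hb
    obtain ⟨q, hq1, hq2⟩ := exists_rat_btwn hb
    obtain ⟨p, -, hp2⟩ := exists_rat_btwn (sub_one_lt a)
    filter_upwards [main p q hp2 hq1] with m hm
    exact hm.2.trans hq2

theorem hss_cp_subspace [T2Space Z] (hZ : HSS (ℕ → Z)) (W : Set (Cp Z)) : HSS (Cp W) := by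
  classical
  rcases isEmpty_or_nonempty Z with hE | hNE
  · have : Subsingleton (Cp Z) := ⟨fun a b => Subtype.ext (funext fun z => (hE.false z).elim)⟩
    have : Subsingleton W := inferInstance
    have : Countable W := inferInstance
    exact hss_of_secondCountable
  have hHS : HS (ℕ → Z) := hZ.hs
  let S : Cp W → (ℚ × ℚ) → Finset (ℕ × ℚ × ℚ) → Set (ℕ → Z) := fun φ J L =>
    {z | ∀ w : W, Box z L w.1.1 → (J.1 : ℝ) < φ.1 w ∧ φ.1 w < (J.2 : ℝ)}
  have hsam := fun (φ : Cp W) (J : ℚ × ℚ) (L : Finset (ℕ × ℚ × ℚ)) =>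
    exists_dense_seq hHS (S φ J L)
  choose e he using hsam
  refine hss_of_code (T := ((ℚ × ℚ) × Finset (ℕ × ℚ × ℚ) → Bool) ×
      ((ℚ × ℚ) × Finset (ℕ × ℚ × ℚ) × ℕ × ℕ → Z)) (hss_bool_prod hZ _ _)
    (fun φ => (fun i => decide (S φ i.1 i.2).Nonempty,
      fun i => e φ i.1 i.2.1 i.2.2.1 i.2.2.2)) (fun φ s hs => ?_)
  rw [nhds_prod_eq] at hs
  have hs1 := tendsto_pi_nhds.1 (tendsto_fst.comp hs)
  have hs2 := tendsto_pi_nhds.1 (tendsto_snd.comp hs)
  rw [tendsto_subtype_rng, tendsto_pi_nhds]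
  intro w
  refine tendsto_real_of_rat _ _ fun p q hp hq => ?_
  -- a basic box around `w` inside the preimage
  have hopen : IsOpen {w' : W | (p : ℝ) < φ.1 w' ∧ φ.1 w' < (q : ℝ)} :=
    (isOpen_lt continuous_const φ.2).inter (isOpen_lt φ.2 continuous_const)
  obtain ⟨V₁, hV₁, hV₁'⟩ := isOpen_induced_iff.1 hopen
  obtain ⟨V₂, hV₂, rfl⟩ := isOpen_induced_iff.1 hV₁
  have hwV : w.1.1 ∈ V₂ := by
    have : w ∈ {w' : W | (p : ℝ) < φ.1 w' ∧ φ.1 w' < (q : ℝ)} := ⟨hp, hq⟩
    rw [← hV₁'] at this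
    exact this
  obtain ⟨z, L, hz1, hz2⟩ := exists_box w.1.1 V₂ hV₂ hwV
  have hzS : z ∈ S φ (p, q) L := by
    intro w' hw'
    have h1 : w' ∈ {w' : W | (p : ℝ) < φ.1 w' ∧ φ.1 w' < (q : ℝ)} := by
      rw [← hV₁']
      exact hz2 _ hw'
    exact h1
  obtain ⟨-, hdense⟩ := he φ (p, q) L ⟨z, hzS⟩
  obtain ⟨z', hz'1, k, rfl⟩ := mem_closure_iff.1 (hdense hzS) _ (isOpen_box w.1.1 w.1.2 L) hz1
  -- the flags
  have hflag := hs1 ((p, q), L)
  rw [nhds_discrete, tendsto_pure] at hflag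
  -- the points
  have hpts : Tendsto (fun m => e (s m) (p, q) L k) atTop (𝓝 (e φ (p, q) L k)) := by
    rw [tendsto_pi_nhds]
    intro i
    exact hs2 ((p, q), L, k, i)
  filter_upwards [hflag, hpts.eventually ((isOpen_box w.1.1 w.1.2 L).mem_nhds hz'1)] with m hm1 hm2
  have hne : (S (s m) (p, q) L).Nonempty := by
    have h1 : decide (S φ (p, q) L).Nonempty = true := by simpa using ⟨z, hzS⟩
    have h2 : decide (S (s m) (p, q) L).Nonempty = true := by
      simp only [Function.comp_apply] at hm1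
      rw [hm1]
      exact h1
    exact of_decide_eq_true h2
  exact (he (s m) (p, q) L hne).1 k w hm2

/-- the bump function at the natural number `j` -/
noncomputable def hat (j : ℕ) (t : ℝ) : ℝ := max 0 (1 - |t - j|)

theorem continuous_hat (j : ℕ) : Continuous (hat j) := by
  unfold hat
  fun_prop

theorem hat_nonneg (j : ℕ) (t : ℝ) : 0 ≤ hat j t := le_max_left _ _

theorem hat_le_one (j : ℕ) (t : ℝ) : hat j t ≤ 1 :=
  max_le zero_le_one (sub_le_self _ (abs_nonneg _))

theorem hat_self (j : ℕ) : hat j (j : ℝ) = 1 := by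
  simp [hat]

theorem hat_ne {i j : ℕ} (h : i ≠ j) : hat j (i : ℝ) = 0 := by
  unfold hat
  refine max_eq_left ?_
  have h1 : (1 : ℝ) ≤ |(i : ℝ) - j| := by
    have h2 : (1 : ℤ) ≤ |(i : ℤ) - j| := Int.one_le_abs (by omega)
    exact_mod_cast h2
  linarith

/-- the coding of sequences of points of `Z` by continuous functions on `C_p(Z)` -/
noncomputable def seqCode (z₀ : Z) (z : ℕ → Z) : Cp (Cp Z) :=
  ⟨fun f => ∑' j : ℕ, (1 / 2 : ℝ) ^ j * (hat j (f.1 z₀) * Real.arctan (f.1 (z j))), by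
    have hev : ∀ y : Z, Continuous fun f : Cp Z => f.1 y := fun y =>
      (continuous_apply y).comp continuous_subtype_val
    refine continuous_tsum (u := fun j => (1 / 2 : ℝ) ^ j * 2) (fun j => ?_) ?_ ?_
    · exact continuous_const.mul (((continuous_hat j).comp (hev z₀)).mul
        (Real.continuous_arctan.comp (hev (z j))))
    · exact (summable_geometric_of_lt_one (by norm_num) (by norm_num)).mul_right 2
    · intro j f
      rw [norm_mul, norm_mul, Real.norm_of_nonneg (by positivity : (0 : ℝ) ≤ (1 / 2) ^ j),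
        Real.norm_of_nonneg (hat_nonneg _ _)]
      refine mul_le_mul_of_nonneg_left ?_ (by positivity)
      have h1 : ‖Real.arctan (f.1 (z j))‖ ≤ 2 := by
        rw [Real.norm_eq_abs, abs_le]
        have := Real.pi_le_four
        constructor
        · linarith [Real.neg_pi_div_two_lt_arctan (f.1 (z j))]
        · linarith [Real.arctan_lt_pi_div_two (f.1 (z j))]
      calc hat j (f.1 z₀) * ‖Real.arctan (f.1 (z j))‖ ≤ 1 * 2 :=
            mul_le_mul (hat_le_one _ _) h1 (norm_nonneg _) zero_le_one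
        _ = 2 := one_mul 2⟩

theorem seqCode_apply (z₀ : Z) (z : ℕ → Z) (f : Cp Z) (i : ℕ) (hf : f.1 z₀ = i) :
    (seqCode z₀ z).1 f = (1 / 2 : ℝ) ^ i * Real.arctan (f.1 (z i)) := by
  show ∑' j : ℕ, (1 / 2 : ℝ) ^ j * (hat j (f.1 z₀) * Real.arctan (f.1 (z j))) = _
  rw [tsum_eq_single i]
  · rw [hf, hat_self, one_mul]
  · intro j hj
    rw [hf, hat_ne hj.symm]
    ring

theorem hss_pi_of_double [T35Space Z] (h : HSS (Cp (Cp Z))) : HSS (ℕ → Z) := by
  rcases isEmpty_or_nonempty Z with hE | ⟨⟨z₀⟩⟩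
  · have : Subsingleton (ℕ → Z) := ⟨fun a b => funext fun z => (hE.false (a z)).elim⟩
    exact hss_of_subsingleton
  refine hss_of_code h (seqCode z₀) (fun z s hs => ?_)
  rw [tendsto_pi_nhds]
  intro i
  rw [(nhds_basis_opens (z i)).tendsto_right_iff]
  rintro U ⟨hzU, hU⟩
  obtain ⟨φ, hφ, h1, h0, hnn⟩ := exists_bump hU hzU
  let f : Cp Z := ⟨fun y => φ y - φ z₀ + i, by fun_prop⟩
  have hf0 : f.1 z₀ = i := by simp [f]
  rw [tendsto_subtype_rng, tendsto_pi_nhds] at hs
  have hsf := hs f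
  simp only [seqCode_apply z₀ _ f i hf0] at hsf
  have hne : (1 / 2 : ℝ) ^ i * Real.arctan (f.1 (z i)) ≠
      (1 / 2 : ℝ) ^ i * Real.arctan (0 - φ z₀ + i) := by
    intro hcon
    have h2 : ((1 : ℝ) / 2) ^ i ≠ 0 := by positivity
    have h3 := Real.arctan_injective (mul_left_cancel₀ h2 hcon)
    simp only [f, h1] at h3
    linarith
  filter_upwards [hsf.eventually_ne hne] with m hm
  by_contra hcon
  apply hm
  simp only [f]
  rw [h0 _ hcon]

end double

end Pool.Agent.Helper28.CpHSS
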