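import Mathlib
import Pool.Agent.Helper28.CpHSS.Basic

set_option autoImplicit false

open Set Filter Topology

namespace Pool.Agent.Helper28.CpHSS

universe u v w

/-- `X` is a `γ`-space: there are open neighbourhoods `g n x` of the points `x` of `X` such that
every neighbourhood `U` of `x` contains, for some `n`, the union of all the `g n y`,
`y ∈ g n x`. -/
def IsGammaSpace (X : Type u) [TopologicalSpace X] : Prop :=
  ∃ g : ℕ → X → Set X, (∀ n x, IsOpen (g n x) ∧ x ∈ g n x) ∧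
    ∀ (x : X) (U : Set X), IsOpen U → x ∈ U → ∃ n, ∀ y ∈ g n x, g n y ⊆ U

section rel

variable {Y : Type v} [TopologicalSpace Y]

/-- Approximation lemma. -/
theorem exists_of_rel {I : Type*} [Countable I] {T : Type*} (A : Set Y) (c : Y → I → T)
    (N : I → T → T → Prop)
    (h1 : ∀ s : Finset I, ∃ D : Set Y, D ⊆ A ∧ D.Countable ∧
      ∀ f ∈ A, ∃ d ∈ D, ∀ i ∈ s, N i (c f i) (c d i))
    (h2 : ∀ f ∈ A, ∀ u : ℕ → Y, (∀ k, u k ∈ A) →
      (∀ i, ∀ᶠ m in atTop, N i (c f i) (c (u m) i)) → Tendsto u atTop (𝓝 f)) :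
    ∃ D : Set Y, D ⊆ A ∧ D.Countable ∧
      ∀ f ∈ A, ∃ s : ℕ → Y, (∀ k, s k ∈ D) ∧ Tendsto s atTop (𝓝 f) := by
  classical
  obtain ⟨e, he⟩ := exists_injective_nat I
  have hfin : ∀ m : ℕ, {i : I | e i < m}.Finite := fun m =>
    (Set.finite_lt_nat m).preimage he.injOn
  choose D hDA hDc hD using h1
  refine ⟨⋃ m : ℕ, D (hfin m).toFinset, iUnion_subset fun m => hDA _,
    countable_iUnion fun m => hDc _, fun f hf => ?_⟩
  choose u hu hN using fun m : ℕ => hD (hfin m).toFinset f hf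
  refine ⟨u, fun k => mem_iUnion.2 ⟨k, hu k⟩, h2 f hf u (fun k => hDA _ (hu k)) fun i => ?_⟩
  filter_upwards [eventually_gt_atTop (e i)] with m hm
  exact hN m i (by simpa using hm)

end rel

section gamma

variable {X : Type u} [TopologicalSpace X]

theorem hl_pi_of_finite (h : ∀ n : ℕ, HereditarilyLindelofSpace (Fin n → X)) (ι : Type)
    [Finite ι] (S : Set (ι → X)) : IsLindelof S := by
  obtain ⟨n, ⟨e⟩⟩ := Finite.exists_equiv_fin ι
  have := h n
  have h1 : IsLindelof ((Homeomorph.piCongrLeft (Y := fun _ : Fin n => X) e) '' S) :=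
    HereditarilyLindelofSpace.isLindelof _
  have h2 := h1.image (Homeomorph.piCongrLeft (Y := fun _ : Fin n => X) e).symm.continuous
  rwa [← image_comp, Homeomorph.symm_comp_self, image_id] at h2

/-- the sampling lemma: a countable subfamily of the `g n x`, `x ∈ E`, covers `E` -/
theorem exists_sample [Nonempty X] (hL : ∀ S : Set X, IsLindelof S) (g : X → Set X)
    (hg : ∀ x, IsOpen (g x) ∧ x ∈ g x) (E : Set X) :
    ∃ e : ℕ → X, E.Nonempty → (∀ k, e k ∈ E) ∧ ∀ y ∈ E, ∃ k, y ∈ g (e k) := by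
  rcases E.eq_empty_or_nonempty with rfl | hE
  · exact ⟨fun _ => Classical.arbitrary X, fun h => absurd h Set.not_nonempty_empty⟩
  obtain ⟨C, hCE, hCc, hC⟩ := (hL E).elim_countable_subcover_image (b := E) (c := g)
    (fun x _ => (hg x).1) (fun x hx => mem_iUnion₂.2 ⟨x, hx, (hg x).2⟩)
  have hCne : C.Nonempty := by
    obtain ⟨y, hy⟩ := hE
    obtain ⟨x, hx, -⟩ := mem_iUnion₂.1 (hC hy)
    exact ⟨x, hx⟩
  obtain ⟨e, rfl⟩ := hCc.exists_eq_range hCne
  refine ⟨e, fun _ => ⟨fun k => hCE ⟨k, rfl⟩, fun y hy => ?_⟩⟩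
  obtain ⟨x, ⟨k, rfl⟩, hx⟩ := mem_iUnion₂.1 (hC hy)
  exact ⟨k, hx⟩

/-- The main step: if `X` is covered by countably many subsets `S k` with a `γ`-structure (given by
open sets of `X`) and all finite powers of `X` are hereditarily Lindelöf, then the countable power of
`C_p(X)` is hereditarily sequentially separable. -/
theorem hss_pi_of_sigma_gamma (S : ℕ → Set X) (hS : ∀ x, ∃ k, x ∈ S k) (g : ℕ → ℕ → X → Set X)
    (hg : ∀ k n x, IsOpen (g k n x) ∧ x ∈ g k n x)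
    (hg2 : ∀ (k : ℕ) (x : X), x ∈ S k → ∀ U : Set X, IsOpen U → x ∈ U →
      ∃ n, ∀ y ∈ g k n x, y ∈ S k → g k n y ∩ S k ⊆ U)
    (h : ∀ n : ℕ, HereditarilyLindelofSpace (Fin n → X)) : HSS (ℕ → Cp X) := by
  classical
  rcases isEmpty_or_nonempty X with hE | hNE
  · have : Subsingleton (ℕ → Cp X) := ⟨fun a b => by
      funext n
      apply Subtype.ext
      funext x
      exact (hE.false x).elim⟩
    exact hss_of_secondCountable
  have hL : ∀ S : Set X, IsLindelof S := by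
    intro S
    have h1 := hl_pi_of_finite h Unit ((Homeomorph.funUnique Unit X).symm '' S)
    have h2 := h1.image (Homeomorph.funUnique Unit X).continuous
    rwa [← image_comp, Homeomorph.self_comp_symm, image_id] at h2
  -- the open sets determined by the index `j`
  let G : (ℕ → Cp X) → (ℕ × ℚ × ℚ) → Set X := fun f j =>
    {x | (j.2.1 : ℝ) < (f j.1).1 x ∧ (f j.1).1 x < (j.2.2 : ℝ)}
  let E : (ℕ → Cp X) → (ℕ × ℚ × ℚ) → ℕ × ℕ → Set X := fun f j n =>
    {x | x ∈ S n.1 ∧ ∀ y ∈ g n.1 n.2 x, y ∈ S n.1 → g n.1 n.2 y ∩ S n.1 ⊆ G f j}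
  have hsam := fun (f : ℕ → Cp X) (j : ℕ × ℚ × ℚ) (n : ℕ × ℕ) =>
    exists_sample hL (g n.1 n.2) (hg n.1 n.2) (E f j n)
  choose e he using hsam
  intro A
  refine exists_of_rel (I := (ℕ × ℚ × ℚ) × (ℕ × ℕ) × ℕ) (T := Prop × X) A
    (fun f i => ((E f i.1 i.2.1).Nonempty, e f i.1 i.2.1 i.2.2))
    (fun i b b' => b.1 → b'.1 ∧ b.2 ∈ g i.2.1.1 i.2.1.2 b'.2) ?_ ?_
  · intro s
    -- the classes
    let B : Finset ((ℕ × ℚ × ℚ) × (ℕ × ℕ) × ℕ) → Set (ℕ → Cp X) := fun t =>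
      {f ∈ A | ∀ i ∈ s, ((E f i.1 i.2.1).Nonempty ↔ i ∈ t)}
    have key : ∀ t : Finset ((ℕ × ℚ × ℚ) × (ℕ × ℕ) × ℕ), ∃ D : Set (ℕ → Cp X), D ⊆ B t ∧
        D.Countable ∧ ∀ f ∈ B t, ∃ d ∈ D, ∀ i ∈ s,
          e f i.1 i.2.1 i.2.2 ∈ g i.2.1.1 i.2.1.2 (e d i.1 i.2.1 i.2.2) := by
      intro t
      have hlin := hl_pi_of_finite h s
        ((fun (f : ℕ → Cp X) (i : s) => e f i.1.1 i.1.2.1 i.1.2.2) '' B t)
      obtain ⟨D, hDB, hDc, hD⟩ := hlin.elim_countable_subcover_image (b := B t)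
        (c := fun d => {v : s → X | ∀ i : s,
          v i ∈ g i.1.2.1.1 i.1.2.1.2 (e d i.1.1 i.1.2.1 i.1.2.2)})
        (fun d _ => by
          have : {v : s → X | ∀ i : s,
              v i ∈ g i.1.2.1.1 i.1.2.1.2 (e d i.1.1 i.1.2.1 i.1.2.2)} =
              ⋂ i : s, (fun v : s → X => v i) ⁻¹'
                (g i.1.2.1.1 i.1.2.1.2 (e d i.1.1 i.1.2.1 i.1.2.2)) := by
            ext v
            simp
          rw [this]
          exact isOpen_iInter_of_finite fun i =>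
            ((hg _ _ _).1).preimage (continuous_apply i))
        (by
          rintro _ ⟨f, hf, rfl⟩
          exact mem_iUnion₂.2 ⟨f, hf, fun i => (hg _ _ _).2⟩)
      refine ⟨D, hDB, hDc, fun f hf => ?_⟩
      obtain ⟨d, hd, hfd⟩ := mem_iUnion₂.1 (hD ⟨f, hf, rfl⟩)
      exact ⟨d, hd, fun i hi => hfd ⟨i, hi⟩⟩
    choose D hDB hDc hD using key
    refine ⟨⋃ t ∈ s.powerset, D t, iUnion₂_subset fun t _ => (hDB t).trans (fun f hf => hf.1),
      ?_, fun f hf => ?_⟩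
    · exact (s.powerset.finite_toSet.countable).biUnion fun t _ => hDc t
    · have hfB : f ∈ B (s.filter fun i => (E f i.1 i.2.1).Nonempty) :=
        ⟨hf, fun i hi => by simp [hi]⟩
      obtain ⟨d, hd, hfd⟩ := hD _ f hfB
      refine ⟨d, mem_iUnion₂.2 ⟨_, by simp, hd⟩, fun i hi hne => ⟨?_, hfd i hi⟩⟩
      have h1 := (hfB.2 i hi).1 hne
      exact ((hDB _ hd).2 i hi).2 h1
  · intro f _ u _ hu
    rw [tendsto_pi_nhds]
    intro a
    rw [tendsto_subtype_rng, tendsto_pi_nhds]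
    intro y
    rw [tendsto_order]
    have main : ∀ p q : ℚ, (p : ℝ) < (f a).1 y → (f a).1 y < (q : ℝ) →
        ∀ᶠ m in atTop, (p : ℝ) < (u m a).1 y ∧ (u m a).1 y < (q : ℝ) := by
      intro p q hp hq
      have hopen : IsOpen (G f (a, p, q)) :=
        (isOpen_lt continuous_const (f a).2).inter (isOpen_lt (f a).2 continuous_const)
      obtain ⟨k, hyS⟩ := hS y
      obtain ⟨n, hn⟩ := hg2 k y hyS (G f (a, p, q)) hopen ⟨hp, hq⟩
      have hyE : y ∈ E f (a, p, q) (k, n) := ⟨hyS, hn⟩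
      obtain ⟨h1, h2⟩ := he f (a, p, q) (k, n) ⟨y, hyE⟩
      obtain ⟨l, hl⟩ := h2 y hyE
      filter_upwards [hu ((a, p, q), (k, n), l)] with m hm
      obtain ⟨h3, h4⟩ := hm ⟨y, hyE⟩
      have h5 := (he (u m) (a, p, q) (k, n) h3).1 l
      exact h5.2 _ h4 (h1 l).1 ⟨hl, hyS⟩
    constructor
    · intro b hb
      obtain ⟨p, hp1, hp2⟩ := exists_rat_btwn hb
      obtain ⟨q, hq1, -⟩ := exists_rat_btwn (lt_add_one ((f a).1 y))
      filter_upwards [main p q hp2 hq1] with m hm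
      exact hp1.trans hm.1
    · intro b hb
      obtain ⟨q, hq1, hq2⟩ := exists_rat_btwn hb
      obtain ⟨p, -, hp2⟩ := exists_rat_btwn (sub_one_lt ((f a).1 y))
      filter_upwards [main p q hp2 hq1] with m hm
      exact hm.2.trans hq2

theorem hss_pi_of_gamma (hX : IsGammaSpace X)
    (h : ∀ n : ℕ, HereditarilyLindelofSpace (Fin n → X)) : HSS (ℕ → Cp X) := by
  obtain ⟨g, hg, hg2⟩ := hX
  refine hss_pi_of_sigma_gamma (fun _ => univ) (fun x => ⟨0, mem_univ x⟩) (fun _ => g)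
    (fun _ => hg) (fun _ x _ U hU hxU => ?_) h
  obtain ⟨n, hn⟩ := hg2 x U hU hxU
  exact ⟨n, fun y hy _ => inter_subset_left.trans (hn y hy)⟩

theorem hss_pi_of_union_gamma (S : ℕ → Set X) (hS : ⋃ k, S k = univ)
    (hX : ∀ k, IsGammaSpace (S k))
    (h : ∀ n : ℕ, HereditarilyLindelofSpace (Fin n → X)) : HSS (ℕ → Cp X) := by
  classical
  choose g hg hg2 using hX
  have hex : ∀ (k n : ℕ) (x : X), ∃ W : Set X, IsOpen W ∧ x ∈ W ∧
      ∀ hx : x ∈ S k, Subtype.val ⁻¹' W = g k n ⟨x, hx⟩ := by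
    intro k n x
    by_cases hx : x ∈ S k
    · obtain ⟨W, hW, hWg⟩ := isOpen_induced_iff.1 (hg k n ⟨x, hx⟩).1
      refine ⟨W, hW, ?_, fun _ => hWg⟩
      have : (⟨x, hx⟩ : S k) ∈ Subtype.val ⁻¹' W := by
        rw [hWg]
        exact (hg k n ⟨x, hx⟩).2
      exact this
    · exact ⟨univ, isOpen_univ, mem_univ x, fun h => absurd h hx⟩
  choose W hWo hxW hWg using hex
  refine hss_pi_of_sigma_gamma S (fun x => mem_iUnion.1 (hS ▸ mem_univ x)) W
    (fun k n x => ⟨hWo k n x, hxW k n x⟩) (fun k x hxS U hU hxU => ?_) h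
  obtain ⟨n, hn⟩ := hg2 k ⟨x, hxS⟩ (Subtype.val ⁻¹' U) (hU.preimage continuous_subtype_val) hxU
  refine ⟨n, fun y hy hyS z hz => ?_⟩
  have h1 : (⟨y, hyS⟩ : S k) ∈ g k n ⟨x, hxS⟩ := by
    rw [← hWg k n x hxS]
    exact hy
  have h2 : (⟨z, hz.2⟩ : S k) ∈ g k n ⟨y, hyS⟩ := by
    rw [← hWg k n y hyS]
    exact hz.1
  exact hn _ h1 h2

end gamma

end Pool.Agent.Helper28.CpHSS
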