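import Mathlib
import Pool.Agent.Helper28.CpHSS.Basic
import Pool.Agent.Helper28.CpHSS.Velichko
import Pool.Agent.Helper28.CpHSS.Double

set_option autoImplicit false

open Set Filter Topology TopologicalSpace

namespace Pool.Agent.Helper28.CpHSS

universe u v w

/-- `X` is zero-dimensional: the clopen subsets of `X` form a base. -/
def ZeroDim (X : Type u) [TopologicalSpace X] : Prop :=
  IsTopologicalBasis {s : Set X | IsClopen s}

section cosmic

variable {X : Type u} [TopologicalSpace X] {Y : Type v} [TopologicalSpace Y]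

theorem Cosmic.of_map (hY : Cosmic Y) (f : X → Y)
    (hf : ∀ (x : X) (U : Set X), IsOpen U → x ∈ U → ∃ V : Set Y, IsOpen V ∧ f x ∈ V ∧
      f ⁻¹' V ⊆ U) : Cosmic X := by
  obtain ⟨N, hNc, hN⟩ := hY
  refine ⟨(fun n => f ⁻¹' n) '' N, hNc.image _, fun x U hU hx => ?_⟩
  obtain ⟨V, hV, hxV, hVU⟩ := hf x U hU hx
  obtain ⟨n, hn, hxn, hnV⟩ := hN (f x) V hV hxV
  exact ⟨f ⁻¹' n, ⟨n, hn, rfl⟩, hxn, (preimage_mono hnV).trans hVU⟩

theorem Cosmic.of_isInducing (hY : Cosmic Y) {f : X → Y} (hf : IsInducing f) : Cosmic X :=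
  hY.of_map f fun x U hU hx => by
    obtain ⟨V, hV, rfl⟩ := hf.isOpen_iff.1 hU
    exact ⟨V, hV, hx, subset_rfl⟩

theorem Cosmic.cp (hY : Cosmic Y) : Cosmic (Cp Y) := by
  classical
  rcases isEmpty_or_nonempty Y with hE | hNE
  · refine ⟨{univ}, countable_singleton _, fun f U hU hf => ⟨univ, rfl, mem_univ _, ?_⟩⟩
    have : Subsingleton (Cp Y) := ⟨fun a b => Subtype.ext (funext fun z => (hE.false z).elim)⟩
    intro g _
    rwa [Subsingleton.elim g f]
  obtain ⟨N, hNc, hN⟩ := hY
  have := hNc.to_subtype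
  refine ⟨range fun L : Finset (N × ℚ × ℚ) =>
    {f : Cp Y | ∀ t ∈ L, ∀ y ∈ t.1.1, (t.2.1 : ℝ) < f.1 y ∧ f.1 y < (t.2.2 : ℝ)},
    countable_range _, fun f U hU hf => ?_⟩
  obtain ⟨V, hV, rfl⟩ := isOpen_induced_iff.1 hU
  obtain ⟨z, L, h1, h2⟩ := exists_box f.1 V hV hf
  have hch : ∀ t ∈ L, ∃ n : N, z t.1 ∈ n.1 ∧
      n.1 ⊆ {y | (t.2.1 : ℝ) < f.1 y ∧ f.1 y < (t.2.2 : ℝ)} := by
    intro t ht
    obtain ⟨n, hn, h3, h4⟩ := hN (z t.1) {y | (t.2.1 : ℝ) < f.1 y ∧ f.1 y < (t.2.2 : ℝ)}
      ((isOpen_lt continuous_const f.2).inter (isOpen_lt f.2 continuous_const)) (h1 t ht)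
    exact ⟨⟨n, hn⟩, h3, h4⟩
  have hNne : Nonempty N := by
    obtain ⟨n, hn, -⟩ := hN (Classical.arbitrary Y) univ isOpen_univ (mem_univ _)
    exact ⟨⟨n, hn⟩⟩
  choose! n hn1 hn2 using hch
  refine ⟨_, ⟨L.image fun t => (n t, t.2), rfl⟩, ?_, ?_⟩
  · intro t' ht' y hy
    obtain ⟨t, ht, rfl⟩ := Finset.mem_image.1 ht'
    exact hn2 t ht hy
  · intro g hg
    refine h2 g.1 fun t ht => ?_
    exact hg _ (Finset.mem_image_of_mem _ ht) _ (hn1 t ht)

theorem Cosmic.of_double [CompletelyRegularSpace X] (h : Cosmic (Cp (Cp X))) : Cosmic X := by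
  refine h.of_map (fun x => ⟨fun f => f.1 x, (continuous_apply x).comp continuous_subtype_val⟩)
    fun x U hU hx => ?_
  obtain ⟨φ, hφ, h1, h0, -⟩ := exists_bump hU hx
  refine ⟨{F | (1 / 2 : ℝ) < F.1 ⟨φ, hφ⟩}, ?_, ?_, ?_⟩
  · exact isOpen_lt continuous_const ((continuous_apply _).comp continuous_subtype_val)
  · show (1 / 2 : ℝ) < φ x
    rw [h1]
    norm_num
  · intro y hy
    have hy' : (1 / 2 : ℝ) < φ y := hy
    by_contra hcon
    rw [h0 y hcon] at hy'
    norm_num at hy'

theorem ZeroDim.of_isInducing (hY : ZeroDim Y) {f : X → Y} (hf : IsInducing f) : ZeroDim X := by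
  refine isTopologicalBasis_of_isOpen_of_nhds (fun u hu => hu.2) (fun x U hx hU => ?_)
  obtain ⟨V, hV, rfl⟩ := hf.isOpen_iff.1 hU
  obtain ⟨v, hv, hxv, hvV⟩ := hY.exists_subset_of_mem_open hx hV
  exact ⟨f ⁻¹' v, hv.preimage hf.continuous, hxv, preimage_mono hvV⟩

end cosmic

section zerodim

variable {X : Type u} [TopologicalSpace X]

/-- the `{0,1}`-valued continuous functions -/
def Two (X : Type u) [TopologicalSpace X] : Set (Cp X) := {f | ∀ x, f.1 x = 0 ∨ f.1 x = 1}

theorem zeroDim_two : ZeroDim (Two X) := by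
  classical
  have h0 : ZeroDim (X → Bool) := isTopologicalBasis_isClopen
  refine h0.of_isInducing (f := fun w x => decide (w.1.1 x = 1)) ?_
  have hev : ∀ x : X, Continuous fun w : Two X => w.1.1 x := fun x =>
    (continuous_apply x).comp (continuous_subtype_val.comp continuous_subtype_val)
  refine IsInducing.of_comp (g := fun (b : X → Bool) (x : X) => if b x then (1 : ℝ) else 0)
    ?_ ?_ ?_
  · refine continuous_pi fun x => (continuous_bool_rng true).2 ?_
    have h1 : (fun w : Two X => decide (w.1.1 x = 1)) ⁻¹' {true} = {w | w.1.1 x = 1} := by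
      ext w
      simp
    have h2 : {w : Two X | w.1.1 x = 1} = {w | (1 / 2 : ℝ) < w.1.1 x} := by
      ext w
      show w.1.1 x = 1 ↔ (1 / 2 : ℝ) < w.1.1 x
      constructor
      · intro h
        rw [h]
        norm_num
      · intro h
        rcases w.2 x with h3 | h3
        · rw [h3] at h
          norm_num at h
        · exact h3
    rw [h1]
    refine ⟨isClosed_eq (hev x) continuous_const, ?_⟩
    rw [h2]
    exact isOpen_lt continuous_const (hev x)
  · refine continuous_pi fun x => ?_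
    exact (continuous_of_discreteTopology (f := fun b : Bool => if b then (1 : ℝ) else 0)).comp
      (continuous_apply x)
  · have : ((fun (b : X → Bool) (x : X) => if b x then (1 : ℝ) else 0) ∘
        fun (w : Two X) x => decide (w.1.1 x = 1)) = Subtype.val ∘ Subtype.val := by
      funext w x
      simp only [Function.comp_apply, decide_eq_true_eq]
      rcases w.2 x with h3 | h3
      · rw [h3]
        simp
      · rw [h3]
        simp
    rw [this]
    exact IsInducing.subtypeVal.comp IsInducing.subtypeVal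

theorem isClosedEmbedding_cantor :
    IsClosedEmbedding (Cardinal.cantorFunction (1 / 3) : (ℕ → Bool) → ℝ) := by
  refine Continuous.isClosedEmbedding ?_
    (Cardinal.cantorFunction_injective (by norm_num) (by norm_num))
  show Continuous fun f : ℕ → Bool => ∑' n, Cardinal.cantorFunctionAux (1 / 3) f n
  refine continuous_tsum (u := fun n => (1 / 3 : ℝ) ^ n) (fun n => ?_)
    (summable_geometric_of_lt_one (by norm_num) (by norm_num)) (fun n f => ?_)
  · exact (continuous_of_discreteTopology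
      (f := fun b : Bool => cond b ((1 / 3 : ℝ) ^ n) 0)).comp (continuous_apply n)
  · unfold Cardinal.cantorFunctionAux
    cases f n
    · simp
    · simp

theorem isLindelof_of_pow (h : ∀ n : ℕ, HereditarilyLindelofSpace (Fin n → X)) (S : Set X) :
    IsLindelof S := by
  have := h 1
  have h1 : IsLindelof ((Homeomorph.funUnique (Fin 1) X).symm '' S) :=
    HereditarilyLindelofSpace.isLindelof _
  have h2 := h1.image (Homeomorph.funUnique (Fin 1) X).continuous
  rwa [← image_comp, Homeomorph.self_comp_symm, image_id] at h2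

theorem exists_clopen_seq (hL : ∀ S : Set X, IsLindelof S) (hX : ZeroDim X) (G : Set X)
    (hG : IsOpen G) : ∃ B : ℕ → Set X, (∀ k, IsClopen (B k)) ∧ (∀ k, B k ⊆ G) ∧
      ∀ x ∈ G, ∃ k, x ∈ B k := by
  have hv : ∀ x, ∃ v : Set X, IsClopen v ∧ (x ∈ G → x ∈ v ∧ v ⊆ G) := by
    intro x
    by_cases hx : x ∈ G
    · obtain ⟨v, hv, hxv, hvG⟩ := hX.exists_subset_of_mem_open hx hG
      exact ⟨v, hv, fun _ => ⟨hxv, hvG⟩⟩
    · exact ⟨∅, isClopen_empty, fun h => absurd h hx⟩
  choose v hvc hv using hv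
  obtain ⟨t, htc, htG, hGt⟩ := (hL G).elim_nhds_subcover v
    (fun x hx => (hvc x).isOpen.mem_nhds (hv x hx).1)
  rcases t.eq_empty_or_nonempty with rfl | ht
  · refine ⟨fun _ => ∅, fun _ => isClopen_empty, fun _ => empty_subset _, fun x hx => ?_⟩
    have := hGt hx
    simp at this
  · obtain ⟨e, rfl⟩ := htc.exists_eq_range ht
    refine ⟨fun k => v (e k), fun k => hvc _, fun k => (hv _ (htG _ ⟨k, rfl⟩)).2,
      fun x hx => ?_⟩
    obtain ⟨_, ⟨k, rfl⟩, hk⟩ := mem_iUnion₂.1 (hGt hx)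
    exact ⟨k, hk⟩

theorem hss_pi_cp_of_zeroDim [T35Space X] (hX : ZeroDim X) (h : HSS (Cp X)) :
    HSS (ℕ → Cp X) := by
  classical
  have hL : ∀ S : Set X, IsLindelof S := isLindelof_of_pow fun n => hl_of_hs h.hs n
  have hB := fun (F : ℕ → Cp X) (n : ℕ) (J : ℚ × ℚ) =>
    exists_clopen_seq hL hX {x | (J.1 : ℝ) < (F n).1 x ∧ (F n).1 x < (J.2 : ℝ)}
      ((isOpen_lt continuous_const (F n).2).inter (isOpen_lt (F n).2 continuous_const))
  choose B hBc hBG hB using hB
  obtain ⟨g, hg⟩ := exists_surjective_nat (ℕ × (ℚ × ℚ) × ℕ)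
  let β : (ℕ → Cp X) → X → ℕ → Bool := fun F x i =>
    decide (x ∈ B F (g i).1 (g i).2.1 (g i).2.2)
  have hβ : ∀ F, Continuous (β F) := by
    intro F
    refine continuous_pi fun i => (continuous_bool_rng true).2 ?_
    have : (fun x => β F x i) ⁻¹' {true} = B F (g i).1 (g i).2.1 (g i).2.2 := by
      ext x
      simp [β]
    rw [this]
    exact hBc _ _ _ _
  refine hss_of_code h (fun F => ⟨fun x => Cardinal.cantorFunction (1 / 3) (β F x),
    isClosedEmbedding_cantor.continuous.comp (hβ F)⟩) (fun F s hs => ?_)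
  rw [tendsto_subtype_rng, tendsto_pi_nhds] at hs
  rw [tendsto_pi_nhds]
  intro n
  rw [tendsto_subtype_rng, tendsto_pi_nhds]
  intro x
  refine tendsto_real_of_rat _ _ fun p q hp hq => ?_
  obtain ⟨k, hk⟩ := hB F n (p, q) x ⟨hp, hq⟩
  obtain ⟨i, hi⟩ := hg (n, (p, q), k)
  have h1 : Tendsto (fun m => β (s m) x) atTop (𝓝 (β F x)) :=
    isClosedEmbedding_cantor.isEmbedding.tendsto_nhds_iff.2 (hs x)
  have h2 := tendsto_pi_nhds.1 h1 i
  rw [nhds_discrete, tendsto_pure] at h2
  filter_upwards [h2] with m hm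
  have h3 : β F x i = true := by
    simp only [β, hi]
    simpa using hk
  rw [h3] at hm
  simp only [β, hi, decide_eq_true_eq] at hm
  exact hBG (s m) n (p, q) k hm

/-- every zero-dimensional space embeds in `C_p` of its space of two-valued functions -/
theorem Cosmic.of_two (hX : ZeroDim X) (h : Cosmic (Cp (Two X))) : Cosmic X := by
  classical
  refine h.of_map (fun x => ⟨fun w => w.1.1 x,
    (continuous_apply x).comp (continuous_subtype_val.comp continuous_subtype_val)⟩)
    fun x U hU hx => ?_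
  obtain ⟨v, hv, hxv, hvU⟩ := hX.exists_subset_of_mem_open hx hU
  have hv' : IsClopen v := hv
  let w : Two X := ⟨⟨v.indicator fun _ => (1 : ℝ), hv'.continuous_indicator continuous_const⟩, fun y => by
    by_cases hy : y ∈ v
    · right
      simp [hy]
    · left
      simp [hy]⟩
  refine ⟨{F | (1 / 2 : ℝ) < F.1 w}, ?_, ?_, ?_⟩
  · exact isOpen_lt continuous_const ((continuous_apply _).comp continuous_subtype_val)
  · show (1 / 2 : ℝ) < v.indicator (fun _ => (1 : ℝ)) x
    rw [indicator_of_mem hxv]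
    norm_num
  · intro y hy
    have hy' : (1 / 2 : ℝ) < v.indicator (fun _ => (1 : ℝ)) y := hy
    refine hvU ?_
    by_contra hcon
    rw [indicator_of_notMem hcon] at hy'
    norm_num at hy'

end zerodim

end Pool.Agent.Helper28.CpHSS
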