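import Mathlib
import Pool.Agent.Helper28.CpHSS.Basic
import Pool.Agent.Helper28.CpHSS.Velichko
import Pool.Agent.Helper28.CpHSS.Gamma
import Pool.Agent.Helper28.CpHSS.ZeroDim

set_option autoImplicit false

open Set Filter Topology TopologicalSpace

namespace Pool.Agent.Helper28.CpHSS

universe u v w

/-- A set `E` of reals is increasing (Avraham-Shelah) if for every `n`, every uncountable family of
pairwise disjoint `n`-tuples of distinct elements of `E` contains two tuples `a`, `b` with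
`a i < b i` for all `i`. -/
def IsIncreasing (E : Set ℝ) : Prop :=
  ∀ (n : ℕ) (F : Set (Fin n → ℝ)), ¬ F.Countable →
    (∀ a ∈ F, Function.Injective a ∧ ∀ i, a i ∈ E) →
    (∀ a ∈ F, ∀ b ∈ F, a ≠ b → ∀ i j, a i ≠ b j) →
    ∃ a ∈ F, ∃ b ∈ F, ∀ i, a i < b i

section toIncreasing

variable {Y : Type u} [TopologicalSpace Y]

theorem exists_increasing_of_hl (h : ∀ n : ℕ, HereditarilyLindelofSpace (Fin n → Y)) (S : Set Y)
    (hS : ¬ S.Countable) (ψ : Y → ℝ) (hψ : InjOn ψ S)
    (hW : ∀ x ∈ S, ∃ W : Set Y, IsOpen W ∧ x ∈ W ∧ ∀ y ∈ S, y ∈ W → ψ x ≤ ψ y) :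
    ∃ E : Set ℝ, ¬ E.Countable ∧ IsIncreasing E := by
  classical
  have hSne : S.Nonempty := by
    by_contra hcon
    rw [Set.not_nonempty_iff_eq_empty] at hcon
    exact hS (hcon ▸ countable_empty)
  have : Nonempty Y := ⟨hSne.some⟩
  choose! W hWo hxW hWS using hW
  refine ⟨ψ '' S, fun hc => hS (countable_of_injective_of_countable_image hψ hc), ?_⟩
  intro n F hF hFE hdis
  -- lifts
  have hlift : ∀ a ∈ F, ∃ s : Fin n → Y, ∀ i, s i ∈ S ∧ ψ (s i) = a i := by
    intro a ha
    choose s hs using fun i => (hFE a ha).2 i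
    exact ⟨s, hs⟩
  choose! s hs using hlift
  have := h n
  have hlin : IsLindelof (s '' F) := HereditarilyLindelofSpace.isLindelof _
  obtain ⟨D, hDF, hDc, hD⟩ := hlin.elim_countable_subcover_image (b := F)
    (c := fun a => {v : Fin n → Y | ∀ i, v i ∈ W (s a i)})
    (fun a ha => by
      have : {v : Fin n → Y | ∀ i, v i ∈ W (s a i)} =
          ⋂ i, (fun v : Fin n → Y => v i) ⁻¹' (W (s a i)) := by
        ext v
        simp
      rw [this]
      exact isOpen_iInter_of_finite fun i =>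
        (hWo _ (hs a ha i).1).preimage (continuous_apply i))
    (by
      rintro _ ⟨a, ha, rfl⟩
      exact mem_iUnion₂.2 ⟨a, ha, fun i => hxW _ (hs a ha i).1⟩)
  obtain ⟨b, hbF, hbD⟩ : ∃ b ∈ F, b ∉ D := by
    by_contra hcon
    push Not at hcon
    exact hF (hDc.mono hcon)
  obtain ⟨d, hd, hbd⟩ := mem_iUnion₂.1 (hD ⟨b, hbF, rfl⟩)
  refine ⟨d, hDF hd, b, hbF, fun i => lt_of_le_of_ne ?_ ?_⟩
  · have h1 := hWS _ (hs d (hDF hd) i).1 _ (hs b hbF i).1 (hbd i)
    rwa [(hs d (hDF hd) i).2, (hs b hbF i).2] at h1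
  · exact hdis d (hDF hd) b hbF (fun h => hbD (h ▸ hd)) i i

end toIncreasing

section coinitial

/-- coinitial countable subsets -/
def CC {n : ℕ} (S : Set (Fin n → ℝ)) : Prop :=
  ∃ D : Set (Fin n → ℝ), D ⊆ S ∧ D.Countable ∧ ∀ s ∈ S, ∃ d ∈ D, ∀ i, d i ≤ s i

theorem CC.union {n : ℕ} {S S' : Set (Fin n → ℝ)} (h : CC S) (h' : CC S') : CC (S ∪ S') := by
  obtain ⟨D, h1, h2, h3⟩ := h
  obtain ⟨D', h1', h2', h3'⟩ := h'
  refine ⟨D ∪ D', union_subset_union h1 h1', h2.union h2', ?_⟩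
  rintro s (hs | hs)
  · obtain ⟨d, hd, hds⟩ := h3 s hs
    exact ⟨d, Or.inl hd, hds⟩
  · obtain ⟨d, hd, hds⟩ := h3' s hs
    exact ⟨d, Or.inr hd, hds⟩

theorem CC.iUnion {n : ℕ} {ι : Type*} [Countable ι] {S : ι → Set (Fin n → ℝ)}
    (h : ∀ i, CC (S i)) : CC (⋃ i, S i) := by
  choose D h1 h2 h3 using h
  refine ⟨⋃ i, D i, iUnion_mono h1, countable_iUnion h2, fun s hs => ?_⟩
  obtain ⟨i, hi⟩ := mem_iUnion.1 hs
  obtain ⟨d, hd, hds⟩ := h3 i s hi
  exact ⟨d, mem_iUnion.2 ⟨i, hd⟩, hds⟩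

/-- dropping a coordinate which is monotone in the others -/
theorem CC.of_drop {n : ℕ} {S : Set (Fin (n + 1) → ℝ)} (i : Fin (n + 1))
    (h : CC ((fun s : Fin (n + 1) → ℝ => fun j => s (i.succAbove j)) '' S))
    (hmono : ∀ d ∈ S, ∀ s ∈ S, (∀ j, j ≠ i → d j ≤ s j) → d i ≤ s i) : CC S := by
  classical
  obtain ⟨D, hDS, hDc, hD⟩ := h
  have hlift : ∀ d ∈ D, ∃ s ∈ S, (fun j => s (i.succAbove j)) = d := fun d hd => hDS hd
  choose! l hlS hl using hlift
  refine ⟨l '' D, ?_, hDc.image _, fun s hs => ?_⟩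
  · rintro _ ⟨d, hd, rfl⟩
    exact hlS d hd
  · obtain ⟨d, hd, hds⟩ := hD _ ⟨s, hs, rfl⟩
    refine ⟨l d, ⟨d, hd, rfl⟩, ?_⟩
    have hne : ∀ j, j ≠ i → l d j ≤ s j := by
      intro j hj
      obtain ⟨k, rfl⟩ := Fin.exists_succAbove_eq hj
      have := hds k
      rw [← hl d hd] at this
      exact this
    intro j
    by_cases hj : j = i
    · rw [hj]
      exact hmono _ (hlS d hd) s hs hne
    · exact hne j hj

theorem cc_of_increasing {E : Set ℝ} (hE : IsIncreasing E) :
    ∀ (n : ℕ) (S : Set (Fin n → ℝ)), (∀ s ∈ S, ∀ i, s i ∈ E) → CC S := by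
  classical
  intro n
  induction n with
  | zero =>
    intro S _
    exact ⟨S, subset_rfl, (Set.subsingleton_of_subsingleton).countable,
      fun s hs => ⟨s, hs, fun i => le_rfl⟩⟩
  | succ n ih =>
    intro S hS
    -- a countable dense subset
    obtain ⟨D₀, hD₀S, hD₀c, hD₀⟩ := (hs_of_secondCountable (Y := Fin (n + 1) → ℝ)) S
    let B : Set (Fin (n + 1) → ℝ) := {b ∈ S | ¬ ∃ a ∈ S, ∀ i, a i < b i}
    have hBS : B ⊆ S := fun b hb => hb.1
    -- slices
    have hslice : ∀ (i : Fin (n + 1)) (c : ℝ), CC {b ∈ B | b i = c} := by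
      intro i c
      refine CC.of_drop i (ih _ ?_) ?_
      · rintro _ ⟨s, hs, rfl⟩ j
        exact hS s (hBS hs.1) _
      · intro d hd s hs _
        rw [hd.2, hs.2]
    have hdiag : ∀ (i j : Fin (n + 1)), i ≠ j → CC {b ∈ B | b i = b j} := by
      intro i j hij
      refine CC.of_drop i (ih _ ?_) ?_
      · rintro _ ⟨s, hs, rfl⟩ j
        exact hS s (hBS hs.1) _
      · intro d hd s hs hle
        rw [hd.2, hs.2]
        exact hle j hij.symm
    -- a maximal family of pairwise disjoint tuples of `B`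
    obtain ⟨F, hF⟩ : ∃ F : Set (Fin (n + 1) → ℝ), Maximal (fun F => F ⊆ B ∧
        (∀ a ∈ F, Function.Injective a) ∧ ∀ a ∈ F, ∀ b ∈ F, a ≠ b → ∀ i j, a i ≠ b j) F := by
      refine zorn_subset {F | F ⊆ B ∧ (∀ a ∈ F, Function.Injective a) ∧
        ∀ a ∈ F, ∀ b ∈ F, a ≠ b → ∀ i j, a i ≠ b j} ?_
      intro c hc hchain
      refine ⟨⋃₀ c, ⟨?_, ?_, ?_⟩, fun s hs => subset_sUnion_of_mem hs⟩
      · exact sUnion_subset fun s hs => (hc hs).1
      · rintro a ⟨s, hs, ha⟩
        exact (hc hs).2.1 a ha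
      · rintro a ⟨s, hs, ha⟩ b ⟨t, ht, hb⟩
        rcases hchain.total hs ht with h | h
        · exact (hc ht).2.2 a (h ha) b hb
        · exact (hc hs).2.2 a ha b (h hb)
    have hFc : F.Countable := by
      by_contra hcon
      obtain ⟨a, ha, b, hb, hab⟩ := hE (n + 1) F hcon
        (fun a ha => ⟨hF.prop.2.1 a ha, fun i => hS a (hBS (hF.prop.1 ha)) i⟩) hF.prop.2.2
      exact (hF.prop.1 hb).2 ⟨a, hBS (hF.prop.1 ha), hab⟩
    have hCc : (⋃ a ∈ F, range a).Countable := hFc.biUnion fun a _ => countable_range a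
    have hBcov : B = (⋃ p : {p : Fin (n + 1) × Fin (n + 1) // p.1 ≠ p.2},
        {b ∈ B | b p.1.1 = b p.1.2}) ∪
        ⋃ p : Fin (n + 1) × (⋃ a ∈ F, range a : Set ℝ), {b ∈ B | b p.1 = p.2} := by
      apply Subset.antisymm
      · intro b hb
        by_cases hinj : Function.Injective b
        · right
          by_contra hcon
          simp only [mem_iUnion, not_exists] at hcon
          have hdis : ∀ a ∈ F, ∀ i j, a i ≠ b j := by
            intro a ha i j hij
            exact hcon (j, ⟨a i, mem_iUnion₂.2 ⟨a, ha, mem_range_self i⟩⟩) ⟨hb, hij.symm⟩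
          have hins : F ⊆ insert b F := subset_insert b F
          have hprop : insert b F ⊆ B ∧ (∀ a ∈ insert b F, Function.Injective a) ∧
              ∀ a ∈ insert b F, ∀ b' ∈ insert b F, a ≠ b' → ∀ i j, a i ≠ b' j := by
            refine ⟨insert_subset hb hF.prop.1, ?_, ?_⟩
            · rintro a (rfl | ha)
              · exact hinj
              · exact hF.prop.2.1 a ha
            · rintro a (rfl | ha) b' (rfl | hb') hne i j
              · exact absurd rfl hne
              · exact fun h => hdis b' hb' j i h.symm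
              · exact hdis a ha i j
              · exact hF.prop.2.2 a ha b' hb' hne i j
          have hbF : b ∈ F := hF.le_of_ge hprop hins (mem_insert b F)
          exact hdis b hbF 0 0 rfl
        · left
          rw [Function.Injective] at hinj
          push Not at hinj
          obtain ⟨i, j, hij, hne⟩ := hinj
          exact mem_iUnion.2 ⟨⟨(i, j), hne⟩, hb, hij⟩
      · rintro b (hb | hb)
        · obtain ⟨p, hp⟩ := mem_iUnion.1 hb
          exact hp.1
        · obtain ⟨p, hp⟩ := mem_iUnion.1 hb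
          exact hp.1
    have hBCC : CC B := by
      rw [hBcov]
      have := hCc.to_subtype
      exact (CC.iUnion fun p => hdiag _ _ p.2).union (CC.iUnion fun p => hslice _ _)
    obtain ⟨D, hDB, hDc, hD⟩ := hBCC
    refine ⟨D₀ ∪ D, union_subset hD₀S (hDB.trans hBS), hD₀c.union hDc, fun s hs => ?_⟩
    by_cases hsB : s ∈ B
    · obtain ⟨d, hd, hds⟩ := hD s hsB
      exact ⟨d, Or.inr hd, hds⟩
    · have hex : ∃ a ∈ S, ∀ i, a i < s i := by
        by_contra hcon
        exact hsB ⟨hs, hcon⟩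
      obtain ⟨a, ha, has⟩ := hex
      have hop : IsOpen {v : Fin (n + 1) → ℝ | ∀ i, v i < s i} := by
        have : {v : Fin (n + 1) → ℝ | ∀ i, v i < s i} =
            ⋂ i, {v : Fin (n + 1) → ℝ | v i < s i} := by
          ext v
          simp
        rw [this]
        exact isOpen_iInter_of_finite fun i => isOpen_lt (continuous_apply i) continuous_const
      obtain ⟨d, hd1, hd2⟩ := mem_closure_iff.1 (hD₀ ha) _ hop has
      exact ⟨d, Or.inl hd2, fun i => (hd1 i).le⟩

end coinitial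

end Pool.Agent.Helper28.CpHSS
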