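import Mathlib
import Pool.Agent.Helper28.CpHSS.Basic
import Pool.Agent.Helper28.CpHSS.Velichko
import Pool.Agent.Helper28.CpHSS.Gamma
import Pool.Agent.Helper28.CpHSS.ZeroDim
import Pool.Agent.Helper28.CpHSS.Increasing

set_option autoImplicit false

open Set Filter Topology TopologicalSpace

namespace Pool.Agent.Helper28.CpHSS

universe u v w

section lots

variable {L : Type u} [LinearOrder L] [TopologicalSpace L] [OrderTopology L]

theorem exists_cut {a b : L} (hab : a < b) : ∃ (c : L) (U V : Set L), IsOpen U ∧ IsOpen V ∧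
    a ∈ U ∧ b ∈ V ∧ (∀ u ∈ U, u < c) ∧ ∀ v ∈ V, c ≤ v := by
  by_cases h : ∃ z, a < z ∧ z < b
  · obtain ⟨z, h1, h2⟩ := h
    exact ⟨z, Iio z, Ioi z, isOpen_Iio, isOpen_Ioi, h1, h2, fun u hu => hu, fun v hv => le_of_lt hv⟩
  · push Not at h
    exact ⟨b, Iio b, Ioi a, isOpen_Iio, isOpen_Ioi, hab, hab, fun u hu => hu, fun v hv => h v hv⟩

theorem exists_cuts (G : Set L) (h : ∀ n : ℕ, HereditarilyLindelofSpace (Fin n → G)) :
    ∃ C : Set L, C.Countable ∧ ∀ a b : G, a < b → ∃ c ∈ C, (a : L) < c ∧ c ≤ b := by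
  classical
  have := h 2
  have hL : ∀ S : Set (G × G), IsLindelof S := by
    intro S
    have h1 : IsLindelof ((Homeomorph.finTwoArrow (X := G)).symm '' S) :=
      HereditarilyLindelofSpace.isLindelof _
    have h2 := h1.image (Homeomorph.finTwoArrow (X := G)).continuous
    rwa [← image_comp, Homeomorph.self_comp_symm, image_id] at h2
  have hcut := fun (p : {p : G × G // p.1 < p.2}) => exists_cut (show (p.1.1 : L) < p.1.2 from p.2)
  choose c U V hU hV haU hbV hUc hVc using hcut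
  obtain ⟨r, hr, hcov⟩ := (hL {p : G × G | p.1 < p.2}).elim_countable_subcover
    (fun p : {p : G × G // p.1 < p.2} => (Subtype.val ⁻¹' U p) ×ˢ (Subtype.val ⁻¹' V p))
    (fun p => ((hU p).preimage continuous_subtype_val).prod
      ((hV p).preimage continuous_subtype_val))
    (fun p hp => mem_iUnion.2 ⟨⟨p, hp⟩, haU ⟨p, hp⟩, hbV ⟨p, hp⟩⟩)
  refine ⟨c '' r, hr.image c, fun a b hab => ?_⟩
  obtain ⟨p, hp, h1, h2⟩ := mem_iUnion₂.1 (hcov (show (a, b) ∈ {p : G × G | p.1 < p.2} from hab))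
  exact ⟨c p, ⟨p, hp, rfl⟩, hUc p a h1, hVc p b h2⟩

omit [TopologicalSpace L] [OrderTopology L] in
theorem exists_strictMono (G : Set L) (C : Set L) (hC : C.Countable)
    (hCG : ∀ a b : G, a < b → ∃ c ∈ C, (a : L) < c ∧ c ≤ b) :
    ∃ φ : G → ℝ, StrictMono φ := by
  classical
  rcases C.eq_empty_or_nonempty with rfl | hCne
  · refine ⟨fun _ => 0, fun a b hab => ?_⟩
    obtain ⟨c, hc, -⟩ := hCG a b hab
    exact absurd hc (notMem_empty c)
  obtain ⟨c, rfl⟩ := hC.exists_eq_range hCne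
  have hsum : ∀ a : G, Summable fun k : ℕ => if c k ≤ (a : L) then ((1 : ℝ) / 2) ^ k else 0 := by
    intro a
    refine Summable.of_nonneg_of_le (fun k => ?_) (fun k => ?_)
      (summable_geometric_of_lt_one (r := (1 : ℝ) / 2) (by norm_num) (by norm_num))
    · split_ifs
      · positivity
      · exact le_rfl
    · split_ifs
      · exact le_rfl
      · positivity
  refine ⟨fun a => ∑' k : ℕ, if c k ≤ (a : L) then ((1 : ℝ) / 2) ^ k else 0, fun a b hab => ?_⟩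
  obtain ⟨_, ⟨k, rfl⟩, h1, h2⟩ := hCG a b hab
  refine Summable.tsum_lt_tsum (i := k) (fun j => ?_) ?_ (hsum a) (hsum b)
  · by_cases hj : c j ≤ (a : L)
    · have hj' : c j ≤ (b : L) := hj.trans (le_of_lt hab)
      show (if c j ≤ (a : L) then ((1 : ℝ) / 2) ^ j else 0) ≤
        if c j ≤ (b : L) then ((1 : ℝ) / 2) ^ j else 0
      rw [if_pos hj, if_pos hj']
    · show (if c j ≤ (a : L) then ((1 : ℝ) / 2) ^ j else 0) ≤
        if c j ≤ (b : L) then ((1 : ℝ) / 2) ^ j else 0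
      rw [if_neg hj]
      split_ifs
      · positivity
      · exact le_rfl
  · show (if c k ≤ (a : L) then ((1 : ℝ) / 2) ^ k else 0) <
        if c k ≤ (b : L) then ((1 : ℝ) / 2) ^ k else 0
    rw [if_neg (not_le.2 h1), if_pos h2]
    positivity

/-- the left side of a neighbourhood of a point which is not isolated from the left -/
theorem exists_left (G : Set L) (C : Set L)
    (hCG : ∀ a b : G, a < b → ∃ c ∈ C, (a : L) < c ∧ c ≤ b) (x : G)
    (hx : ¬ ∃ W : Set G, IsOpen W ∧ x ∈ W ∧ ∀ y ∈ W, x ≤ y) (U : Set G) (hU : IsOpen U)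
    (hxU : x ∈ U) : ∃ c ∈ C, c ≤ (x : L) ∧ ∀ g : G, c ≤ (g : L) → g ≤ x → g ∈ U := by
  have hex : ∀ W : Set G, IsOpen W → x ∈ W → ∃ y ∈ W, y < x := by
    intro W hW hxW
    by_contra hcon
    push Not at hcon
    exact hx ⟨W, hW, hxW, hcon⟩
  obtain ⟨V, hV, rfl⟩ := isOpen_induced_iff.1 hU
  obtain ⟨a₀, -, ha₀⟩ := hex univ isOpen_univ (mem_univ _)
  obtain ⟨l, hl, hlV⟩ := exists_Ioc_subset_of_mem_nhds (hV.mem_nhds hxU)
    ⟨(a₀ : L), ha₀⟩
  obtain ⟨a₁, ha₁, ha₁x⟩ := hex (Subtype.val ⁻¹' Ioi l)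
    (isOpen_Ioi.preimage continuous_subtype_val) hl
  obtain ⟨c, hc, h1, h2⟩ := hCG a₁ x ha₁x
  refine ⟨c, hc, h2, fun g hg hgx => hlV ⟨?_, hgx⟩⟩
  exact (lt_trans ha₁ h1).trans_le hg

/-- the right side of a neighbourhood of a point which is not isolated from the right -/
theorem exists_right (G : Set L) (C : Set L)
    (hCG : ∀ a b : G, a < b → ∃ c ∈ C, (a : L) < c ∧ c ≤ b) (x : G)
    (hx : ¬ ∃ W : Set G, IsOpen W ∧ x ∈ W ∧ ∀ y ∈ W, y ≤ x) (U : Set G) (hU : IsOpen U)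
    (hxU : x ∈ U) : ∃ c ∈ C, (x : L) < c ∧ ∀ g : G, x ≤ g → (g : L) < c → g ∈ U := by
  have hex : ∀ W : Set G, IsOpen W → x ∈ W → ∃ y ∈ W, x < y := by
    intro W hW hxW
    by_contra hcon
    push Not at hcon
    exact hx ⟨W, hW, hxW, hcon⟩
  obtain ⟨V, hV, rfl⟩ := isOpen_induced_iff.1 hU
  obtain ⟨a₀, -, ha₀⟩ := hex univ isOpen_univ (mem_univ _)
  obtain ⟨r, hr, hrV⟩ := exists_Ico_subset_of_mem_nhds (hV.mem_nhds hxU)
    ⟨(a₀ : L), ha₀⟩
  obtain ⟨b₁, hb₁, hxb₁⟩ := hex (Subtype.val ⁻¹' Iio r)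
    (isOpen_Iio.preimage continuous_subtype_val) hr
  obtain ⟨c, hc, h1, h2⟩ := hCG x b₁ hxb₁
  refine ⟨c, hc, h1, fun g hg hgc => hrV ⟨hg, ?_⟩⟩
  exact hgc.trans_le (h2.trans (le_of_lt hb₁))

theorem cosmic_of_hl (hinc : ¬ ∃ E : Set ℝ, ¬ E.Countable ∧ IsIncreasing E) (G : Set L)
    (h : ∀ n : ℕ, HereditarilyLindelofSpace (Fin n → G)) : Cosmic G := by
  classical
  obtain ⟨C, hCc, hCG⟩ := exists_cuts G h
  obtain ⟨φ, hφ⟩ := exists_strictMono G C hCc hCG
  let R : Set G := {x | ∃ W : Set G, IsOpen W ∧ x ∈ W ∧ ∀ y ∈ W, x ≤ y}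
  let R' : Set G := {x | ∃ W : Set G, IsOpen W ∧ x ∈ W ∧ ∀ y ∈ W, y ≤ x}
  have hR : R.Countable := by
    by_contra hcon
    refine hinc (exists_increasing_of_hl h R hcon φ hφ.injective.injOn ?_)
    rintro x ⟨W, hW, hxW, hWx⟩
    exact ⟨W, hW, hxW, fun y _ hy => hφ.monotone (hWx y hy)⟩
  have hR' : R'.Countable := by
    by_contra hcon
    refine hinc (exists_increasing_of_hl h R' hcon (fun x => - φ x)
      (fun a _ b _ hab => hφ.injective (neg_injective hab)) ?_)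
    rintro x ⟨W, hW, hxW, hWx⟩
    exact ⟨W, hW, hxW, fun y _ hy => neg_le_neg (hφ.monotone (hWx y hy))⟩
  refine ⟨((fun p : L × L => {g : G | p.1 ≤ (g : L) ∧ (g : L) < p.2}) '' (C ×ˢ C)) ∪
    ((fun x => {x}) '' (R ∪ R')), ((hCc.prod hCc).image _).union ((hR.union hR').image _),
    fun x U hU hxU => ?_⟩
  by_cases hx : x ∈ R ∪ R'
  · exact ⟨{x}, Or.inr ⟨x, hx, rfl⟩, rfl, singleton_subset_iff.2 hxU⟩
  · rw [mem_union, not_or] at hx
    obtain ⟨c, hc, h1, h2⟩ := exists_left G C hCG x hx.1 U hU hxU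
    obtain ⟨c', hc', h1', h2'⟩ := exists_right G C hCG x hx.2 U hU hxU
    refine ⟨_, Or.inl ⟨(c, c'), ⟨hc, hc'⟩, rfl⟩, ⟨h1, h1'⟩, ?_⟩
    rintro g ⟨hg1, hg2⟩
    rcases le_total g x with hgx | hgx
    · exact h2 g hg1 hgx
    · exact h2' g hgx hg2

end lots

section products

theorem Cosmic.pi {Y : ℕ → Type u} [∀ i, TopologicalSpace (Y i)] (h : ∀ i, Cosmic (Y i)) :
    Cosmic (∀ i, Y i) := by
  classical
  choose N hNc hN using h
  have := fun i => (hNc i).to_subtype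
  refine ⟨range fun t : Finset (Σ i, N i) => {y : ∀ i, Y i | ∀ p ∈ t, y p.1 ∈ p.2.1},
    countable_range _, fun y U hU hy => ?_⟩
  obtain ⟨I, u, hu, huU⟩ := isOpen_pi_iff.1 hU y hy
  have hch : ∀ i : I, ∃ n : N i, y i ∈ n.1 ∧ n.1 ⊆ u i := by
    intro i
    obtain ⟨n, hn, h1, h2⟩ := hN i (y i) (u i) (hu i i.2).1 (hu i i.2).2
    exact ⟨⟨n, hn⟩, h1, h2⟩
  choose n hn1 hn2 using hch
  refine ⟨_, ⟨I.attach.image fun i => (⟨i.1, n i⟩ : Σ i, N i), rfl⟩, ?_, ?_⟩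
  · intro p hp
    obtain ⟨i, -, rfl⟩ := Finset.mem_image.1 hp
    exact hn1 i
  · intro z hz
    refine huU fun i hi => ?_
    exact hn2 ⟨i, hi⟩ (hz _ (Finset.mem_image_of_mem _ (Finset.mem_attach I ⟨i, hi⟩)))

theorem hl_image {X : Type u} [TopologicalSpace X] {Y : Type v} [TopologicalSpace Y]
    (h : ∀ n : ℕ, HereditarilyLindelofSpace (Fin n → X)) (f : X → Y) (hf : Continuous f)
    (hs : Function.Surjective f) (n : ℕ) : HereditarilyLindelofSpace (Fin n → Y) := by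
  have := h n
  refine ⟨fun S _ => ?_⟩
  let F : (Fin n → X) → (Fin n → Y) := fun v i => f (v i)
  have hF : Continuous F := continuous_pi fun i => hf.comp (continuous_apply i)
  have hFs : Function.Surjective F := fun w => by
    choose v hv using fun i => hs (w i)
    exact ⟨v, funext hv⟩
  have h1 : IsLindelof (F ⁻¹' S) := HereditarilyLindelofSpace.isLindelof _
  have h2 := h1.image hF
  rwa [image_preimage_eq S hFs] at h2

end products

end Pool.Agent.Helper28.CpHSS
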