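import Mathlib
import Pool.Agent.Helper28.CpHSS.Basic
import Pool.Agent.Helper28.CpHSS.Velichko
import Pool.Agent.Helper28.CpHSS.Gamma
import Pool.Agent.Helper28.CpHSS.ZeroDim
import Pool.Agent.Helper28.CpHSS.Increasing

set_option autoImplicit false

open Set Filter Topology TopologicalSpace

namespace Pool.Agent.Helper28.CpHSS

/-- the reals doubled: the lexicographic product of `ℝ` and `Bool` -/
def DA : Type := Lex (ℝ × Bool)

noncomputable instance : LinearOrder DA := inferInstanceAs (LinearOrder (Lex (ℝ × Bool)))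

noncomputable instance : TopologicalSpace DA := Preorder.topology DA

instance : OrderTopology DA := ⟨rfl⟩

/-- constructor -/
def DA.mk (x : ℝ) (b : Bool) : DA := toLex (x, b)

/-- first coordinate -/
def DA.r (p : DA) : ℝ := (ofLex (show Lex (ℝ × Bool) from p)).1

theorem DA.r_mk (x : ℝ) (b : Bool) : (DA.mk x b).r = x := rfl

theorem DA.mk_lt_mk (x y : ℝ) (b c : Bool) : DA.mk x b < DA.mk y c ↔ x < y ∨ x = y ∧ b < c :=
  Prod.Lex.lt_iff

theorem DA.exists_mk (p : DA) : ∃ (x : ℝ) (b : Bool), p = DA.mk x b :=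
  ⟨p.r, (ofLex (show Lex (ℝ × Bool) from p)).2, rfl⟩

/-- the Sorgenfrey topology on `E` as a subspace of the doubled reals -/
def SX (E : Set ℝ) : Set DA := (fun x => DA.mk x true) '' E

variable {E : Set ℝ}

theorem SX.eq_mk (x : SX E) : x.1 = DA.mk x.1.r true := by
  obtain ⟨y, -, hy⟩ := x.2
  rw [← hy]
  rfl

theorem SX.mem (x : SX E) : x.1.r ∈ E := by
  obtain ⟨y, hy, hy'⟩ := x.2
  rw [← hy']
  exact hy

theorem SX.r_injective : Function.Injective fun x : SX E => x.1.r := by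
  intro x y hxy
  apply Subtype.ext
  rw [SX.eq_mk x, SX.eq_mk y]
  simp only at hxy
  rw [hxy]

theorem SX.isOpen_Ici (a : ℝ) : IsOpen {y : SX E | a ≤ y.1.r} := by
  have : {y : SX E | a ≤ y.1.r} = Subtype.val ⁻¹' Ioi (DA.mk a false) := by
    ext y
    show a ≤ y.1.r ↔ DA.mk a false < y.1
    rw [SX.eq_mk y, DA.mk_lt_mk, DA.r_mk]
    constructor
    · intro h
      rcases h.lt_or_eq with h | h
      · exact Or.inl h
      · exact Or.inr ⟨h, rfl⟩
    · rintro (h | h)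
      · exact h.le
      · exact h.1.le
  rw [this]
  exact isOpen_Ioi.preimage continuous_subtype_val

theorem SX.isOpen_Iio (a : ℝ) : IsOpen {y : SX E | y.1.r < a} := by
  have : {y : SX E | y.1.r < a} = Subtype.val ⁻¹' Iio (DA.mk a false) := by
    ext y
    show y.1.r < a ↔ y.1 < DA.mk a false
    rw [SX.eq_mk y, DA.mk_lt_mk, DA.r_mk]
    constructor
    · exact fun h => Or.inl h
    · rintro (h | h)
      · exact h
      · exact absurd h.2 (by decide)
  rw [this]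
  exact _root_.isOpen_Iio.preimage continuous_subtype_val

theorem SX.exists_eps (x : SX E) (U : Set (SX E)) (hU : IsOpen U) (hx : x ∈ U) :
    ∃ ε > 0, ∀ y : SX E, x.1.r ≤ y.1.r → y.1.r < x.1.r + ε → y ∈ U := by
  obtain ⟨V, hV, rfl⟩ := isOpen_induced_iff.1 hU
  obtain ⟨p, hp, hpV⟩ := exists_Ico_subset_of_mem_nhds (hV.mem_nhds hx)
    ⟨DA.mk (x.1.r + 1) true, by
      rw [SX.eq_mk x, DA.mk_lt_mk]
      left
      rw [DA.r_mk]
      linarith⟩
  obtain ⟨c, b, rfl⟩ := DA.exists_mk p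
  have hc : x.1.r < c := by
    rw [SX.eq_mk x, DA.mk_lt_mk] at hp
    rcases hp with h | h
    · exact h
    · exact absurd h.2 (by cases b <;> decide)
  refine ⟨c - x.1.r, sub_pos.2 hc, fun y h1 h2 => hpV ⟨?_, ?_⟩⟩
  · rcases h1.lt_or_eq with h | h
    · apply le_of_lt
      rw [SX.eq_mk x, SX.eq_mk y, DA.mk_lt_mk]
      exact Or.inl h
    · exact le_of_eq (congrArg Subtype.val (SX.r_injective h))
  · rw [SX.eq_mk y, DA.mk_lt_mk]
    left
    linarith

theorem SX.isGamma : IsGammaSpace (SX E) := by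
  refine ⟨fun n x => {y | x.1.r ≤ y.1.r} ∩ {y | y.1.r < x.1.r + 1 / ((n : ℝ) + 1)},
    fun n x => ⟨(SX.isOpen_Ici _).inter (SX.isOpen_Iio _), le_refl x.1.r, ?_⟩, fun x U hU hx => ?_⟩
  · show x.1.r < x.1.r + 1 / ((n : ℝ) + 1)
    have : (0 : ℝ) < 1 / ((n : ℝ) + 1) := by positivity
    linarith
  · obtain ⟨ε, hε, h⟩ := SX.exists_eps x U hU hx
    obtain ⟨n, hn⟩ := exists_nat_one_div_lt (half_pos hε)
    refine ⟨n, ?_⟩
    rintro y ⟨hy1, hy2⟩ z ⟨hz1, hz2⟩
    simp only [mem_ofPred_eq] at hy1 hy2 hz1 hz2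
    exact h z (hy1.trans hz1) (by linarith)

theorem SX.hl (hE : IsIncreasing E) (n : ℕ) : HereditarilyLindelofSpace (Fin n → SX E) := by
  classical
  refine ⟨fun S _ => isLindelof_of_nhds S fun U hU => ?_⟩
  have hm : ∀ s ∈ S, ∃ m : ℕ, ∀ v : Fin n → SX E,
      (∀ i, (s i).1.r ≤ (v i).1.r ∧ (v i).1.r < (s i).1.r + 1 / ((m : ℝ) + 1)) → v ∈ U s := by
    intro s hs
    obtain ⟨u, hu, huU⟩ := isOpen_pi_iff'.1 (hU s hs).1 s (hU s hs).2
    choose ε hε h using fun i => SX.exists_eps (s i) (u i) (hu i).1 (hu i).2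
    choose m hm using fun i => exists_nat_one_div_lt (hε i)
    refine ⟨Finset.univ.sup m, fun v hv => huU fun i _ => h i _ (hv i).1 ?_⟩
    have h1 : m i ≤ Finset.univ.sup m := Finset.le_sup (Finset.mem_univ i)
    have h2 : (m i : ℝ) ≤ ((Finset.univ.sup m : ℕ) : ℝ) := by exact_mod_cast h1
    have h3 : 1 / (((Finset.univ.sup m : ℕ) : ℝ) + 1) ≤ 1 / ((m i : ℝ) + 1) :=
      one_div_le_one_div_of_le (by positivity) (by linarith)
    linarith [(hv i).2, hm i]
  let B : ℕ × (Fin n → ℚ) → Set (Fin n → SX E) := fun p => {s ∈ S |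
    (∀ v : Fin n → SX E, (∀ i, (s i).1.r ≤ (v i).1.r ∧
      (v i).1.r < (s i).1.r + 1 / ((p.1 : ℝ) + 1)) → v ∈ U s) ∧
    ∀ i, (p.2 i : ℝ) ≤ (s i).1.r ∧ (s i).1.r < p.2 i + 1 / ((p.1 : ℝ) + 1)}
  have hcover : ∀ s ∈ S, ∃ p, s ∈ B p := by
    intro s hs
    obtain ⟨m, hm⟩ := hm s hs
    have hpos : (0 : ℝ) < 1 / ((m : ℝ) + 1) := by positivity
    choose ρ hρ using fun i => exists_rat_btwn
      (show (s i).1.r - 1 / ((m : ℝ) + 1) < (s i).1.r by linarith)
    exact ⟨(m, ρ), hs, hm, fun i => ⟨(hρ i).2.le, by have := (hρ i).1; linarith⟩⟩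
  have key : ∀ p, ∃ C : Set (Fin n → SX E), C ⊆ B p ∧ C.Countable ∧
      ∀ s ∈ B p, ∃ c ∈ C, s ∈ U c := by
    intro p
    obtain ⟨D, hDB, hDc, hD⟩ := cc_of_increasing hE n
      ((fun (s : Fin n → SX E) (i : Fin n) => (s i).1.r) '' B p)
      (by
        rintro _ ⟨s, -, rfl⟩ i
        exact SX.mem (s i))
    have hlift : ∀ d : D, ∃ s ∈ B p, (fun i => (s i).1.r) = d.1 := fun d => hDB d.2
    choose l hlB hl using hlift
    have := hDc.to_subtype
    refine ⟨range l, ?_, countable_range l, fun s hs => ?_⟩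
    · rintro _ ⟨d, rfl⟩
      exact hlB d
    · obtain ⟨d, hd, hds⟩ := hD _ ⟨s, hs, rfl⟩
      refine ⟨l ⟨d, hd⟩, ⟨⟨d, hd⟩, rfl⟩, (hlB ⟨d, hd⟩).2.1 s fun i => ?_⟩
      have h1 := congrFun (hl ⟨d, hd⟩) i
      simp only at h1
      refine ⟨?_, ?_⟩
      · rw [h1]
        exact hds i
      · have h2 := (hlB ⟨d, hd⟩).2.2 i
        have h3 := hs.2.2 i
        linarith [h2.1, h3.2]
  choose C hCB hCc hC using key
  refine ⟨⋃ p, C p, iUnion_subset fun p => (hCB p).trans fun s hs => hs.1,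
    countable_iUnion hCc, fun s hs => ?_⟩
  obtain ⟨p, hp⟩ := hcover s hs
  obtain ⟨c, hc, hsc⟩ := hC p s hp
  exact ⟨c, mem_iUnion.2 ⟨p, hc⟩, hsc⟩

theorem SX.countable_of_cosmic (h : Cosmic (SX E)) : E.Countable := by
  obtain ⟨N, hNc, hN⟩ := h
  have := hNc.to_subtype
  have hch : ∀ x : SX E, ∃ n : N, x ∈ n.1 ∧ n.1 ⊆ {y : SX E | x.1.r ≤ y.1.r} := fun x => by
    obtain ⟨n, hn, h1, h2⟩ := hN x {y : SX E | x.1.r ≤ y.1.r} (SX.isOpen_Ici _) (le_refl x.1.r)
    exact ⟨⟨n, hn⟩, h1, h2⟩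
  choose n hn1 hn2 using hch
  have hinj : Function.Injective n := by
    intro x y hxy
    refine SX.r_injective (le_antisymm ?_ ?_)
    · exact hn2 x (hxy ▸ hn1 y)
    · exact hn2 y (hxy ▸ hn1 x)
  have : Countable (SX E) := hinj.countable
  refine (Set.countable_of_injective_of_countable_image (s := E) (f := fun x => DA.mk x true) ?_ ?_)
  · intro x _ y _ hxy
    have := congrArg DA.r hxy
    exact this
  · exact this.to_set

end Pool.Agent.Helper28.CpHSS
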